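import Pool.Agent.H748.Art.Spec

/-!
# Groups with a central element of infinite order in the abelianisation
-/

set_option autoImplicit false
set_option linter.unusedSectionVars false

namespace Pool.Agent.H748.Art

open Polynomial Matrix Filter Pool.Agent.H748.Sig

variable {G : Type*} [Group G]
variable {ι κ l X : Type} [Fintype ι] [DecidableEq ι] [Fintype κ] [DecidableEq κ] [Fintype l]
  [DecidableEq l] [Fintype X] [DecidableEq X]

/-- `ρ ⊗ e^{i t φ}` -/
noncomputable def twt (ρ : G →* Matrix κ κ ℂ) (φ : G →* Multiplicative ℤ) (t : ℝ) :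
    G →* Matrix κ κ ℂ where
  toFun g := Complex.exp (((t * ((Multiplicative.toAdd (φ g) : ℤ) : ℝ) : ℝ) : ℂ) * Complex.I) • ρ g
  map_one' := by
    rw [map_one φ, map_one ρ, toAdd_one]
    simp
  map_mul' g h := by
    rw [map_mul φ, map_mul ρ, toAdd_mul, smul_mul_smul_comm, ← Complex.exp_add]
    congr 2
    push_cast
    ring

theorem twt_apply (ρ : G →* Matrix κ κ ℂ) (φ : G →* Multiplicative ℤ) (t : ℝ) (g : G) :
    twt ρ φ t g =
      Complex.exp (((t * ((Multiplicative.toAdd (φ g) : ℤ) : ℝ) : ℝ) : ℂ) * Complex.I) • ρ g := rfl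

theorem twt_zero (ρ : G →* Matrix κ κ ℂ) (φ : G →* Multiplicative ℤ) : twt ρ φ 0 = ρ := by
  ext g : 1
  rw [twt_apply]
  simp

theorem isU_twt {ρ : G →* Matrix κ κ ℂ} (hρ : IsU ρ) (φ : G →* Multiplicative ℤ) (t : ℝ) :
    IsU (twt ρ φ t) := by
  intro g
  rw [twt_apply, twt_apply, conjTranspose_smul, hρ, Complex.star_def, ← Complex.exp_conj, map_mul,
    Complex.conj_I, Complex.conj_ofReal, map_inv φ, toAdd_inv]
  congr 2
  push_cast
  ring

theorem continuous_twt (ρ : G →* Matrix κ κ ℂ) (φ : G →* Multiplicative ℤ) (g : G) (i j : κ) :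
    Continuous fun t => twt ρ φ t g i j := by
  simp only [twt_apply, Matrix.smul_apply, smul_eq_mul]
  fun_prop

/-- the elements with `φ`-value divisible by `m` -/
def dvd (φ : G →* Multiplicative ℤ) (m : ℕ) : Subgroup G :=
  ((AddMonoidHom.toMultiplicative (Int.castAddHom (ZMod m))).comp φ).ker

theorem mem_dvd {φ : G →* Multiplicative ℤ} {m : ℕ} {g : G} :
    g ∈ dvd φ m ↔ (m : ℤ) ∣ Multiplicative.toAdd (φ g) := by
  rw [← ZMod.intCast_zmod_eq_zero_iff_dvd]
  exact Iff.rfl

instance (φ : G →* Multiplicative ℤ) (m : ℕ) : (dvd φ m).Normal := by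
  unfold dvd
  infer_instance

theorem finiteIndex_dvd (φ : G →* Multiplicative ℤ) {m : ℕ} (hm : 0 < m) :
    (dvd φ m).FiniteIndex := by
  have : NeZero m := ⟨hm.ne'⟩
  have : Finite (ZMod m) := inferInstance
  have : Finite (Multiplicative (ZMod m)) := this
  unfold dvd
  infer_instance

open Classical in
theorem fix_normal (D : Subgroup G) [D.Normal] (r : X → G) (g : G) :
    fix D r g = if g ∈ D then (Fintype.card X : ℂ) else 0 := by
  unfold fix
  have h1 : ∀ x : X, ((r x)⁻¹ * g * r x ∈ D) = (g ∈ D) := by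
    intro x
    apply propext
    constructor
    · intro h
      have h2 := Subgroup.Normal.conj_mem inferInstance _ h (r x)
      have h3 : r x * ((r x)⁻¹ * g * r x) * (r x)⁻¹ = g := by group
      rwa [h3] at h2
    · intro h
      have h2 := Subgroup.Normal.conj_mem inferInstance _ h (r x)⁻¹
      rwa [inv_inv] at h2
  simp only [h1]
  split_ifs
  · rw [Finset.sum_const, nsmul_eq_mul, mul_one, Finset.card_univ]
  · rw [Finset.sum_const_zero]

theorem sum_exp (m : ℕ) (hm : 0 < m) (a : ℤ) :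
    ∑ j ∈ Finset.range m, Complex.exp (((2 * Real.pi * j / m * (a : ℝ) : ℝ) : ℂ) * Complex.I) =
      if (m : ℤ) ∣ a then (m : ℂ) else 0 := by
  have hm' : (m : ℂ) ≠ 0 := Nat.cast_ne_zero.2 hm.ne'
  set ζ : ℂ := Complex.exp (2 * Real.pi * Complex.I / m) with hζ
  have hprim : IsPrimitiveRoot ζ m := Complex.isPrimitiveRoot_exp m hm.ne'
  have h1 : ∀ j : ℕ, Complex.exp (((2 * Real.pi * j / m * (a : ℝ) : ℝ) : ℂ) * Complex.I) =
      (ζ ^ a) ^ j := by
    intro j
    rw [hζ, ← Complex.exp_int_mul, ← Complex.exp_nat_mul]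
    congr 1
    push_cast
    ring
  simp only [h1]
  split_ifs with h
  · have h2 : ζ ^ a = 1 := (hprim.zpow_eq_one_iff_dvd a).2 h
    simp [h2]
  · have h2 : ζ ^ a ≠ 1 := fun hc => h ((hprim.zpow_eq_one_iff_dvd a).1 hc)
    have h3 : (ζ ^ a) ^ m = 1 := by
      rw [← zpow_natCast, ← _root_.zpow_mul, mul_comm, _root_.zpow_mul, zpow_natCast, hprim.pow_eq_one, _root_.one_zpow]
    rw [geom_sum_eq h2, h3, sub_self, zero_div]

/-- signatures of the restriction to the kernel of `G → ℤ → ℤ / m` -/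
theorem sig_ind_dvd (φ : G →* Multiplicative ℤ) {m : ℕ} (hm : 0 < m) (r : X → G)
    (hr : Tr (dvd φ m) r) {A : Matrix ι ι (MonoidAlgebra ℂ G)} {a b : ℝ} (ha : 0 < a)
    (hA : Herm A) (hg : GapA A a b) {ρ : G →* Matrix κ κ ℂ} (hρ : IsU ρ) :
    sig (ev (indRep (dvd φ m) r hr (ρ.comp (dvd φ m).subtype)) A) =
      Fintype.card X * sig (ev ρ A) := by
  classical
  have hm' : (m : ℂ) ≠ 0 := Nat.cast_ne_zero.2 hm.ne'
  have hm'' : (m : ℝ) ≠ 0 := Nat.cast_ne_zero.2 hm.ne'
  have h1 := sig_lin (ev (indRep (dvd φ m) r hr (ρ.comp (dvd φ m).subtype)) A)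
    (Finset.range m) (fun _ => (Fintype.card X : ℝ) / m) (fun _ => ι × κ)
    (fun j => ev (twt ρ φ (2 * Real.pi * j / m)) A) ha (hA.ev (isU_indRep _ _ _ (isU_sub hρ)))
    (hg _ _ (isU_indRep _ _ _ (isU_sub hρ))) (fun j _ => hA.ev (isU_twt hρ φ _))
    (fun j _ => hg _ _ (isU_twt hρ φ _)) (by
      intro P
      simp only [aeval_ev, trace_ev, trace_indRep]
      rw [T_sum_mul]
      congr 2
      funext g
      simp only [twt_apply, trace_smul, smul_eq_mul]
      rw [← Finset.mul_sum, ← Finset.sum_mul, sum_exp m hm, fix_normal]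
      by_cases h : g ∈ dvd φ m
      · rw [if_pos h, if_pos (mem_dvd.1 h)]
        push_cast
        field_simp
      · rw [if_neg h, if_neg (fun hc => h (mem_dvd.2 hc))]
        ring)
  have h2 : ∀ j : ℕ, sig (ev (twt ρ φ (2 * Real.pi * j / m)) A) = sig (ev ρ A) := by
    intro j
    have h3 := sig_ev_path ha hA hg (fun t => isU_twt hρ φ t) (continuous_twt ρ φ)
      (2 * Real.pi * j / m) 0
    rw [twt_zero] at h3
    exact h3
  simp only [h2] at h1
  rw [Finset.sum_const, Finset.card_range, nsmul_eq_mul, ← mul_assoc, mul_div_cancel₀ _ hm''] at h1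
  exact_mod_cast h1

/-- A group with a central element of infinite order in the abelianisation is rigid, if the
kernel of a homomorphism to `ℤ` which detects the element is. -/
theorem rig_of_central (φ : G →* Multiplicative ℤ) (x : G) (hx : ∀ g, Commute x g)
    (hφ : φ x ≠ 1) (hK : Rig φ.ker) : Rig G := by
  intro ι _ _ A a b ha hA hg κ _ _ ρ hρ
  set M : ℤ := Multiplicative.toAdd (φ x) with hM
  have hM0 : M ≠ 0 := by
    intro hc
    exact hφ (Multiplicative.toAdd.injective hc)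
  have hm : 0 < M.natAbs := Int.natAbs_pos.2 hM0
  obtain ⟨X, _, _, r, hr, hne⟩ := @exists_tr G _ (dvd φ M.natAbs) (finiteIndex_dvd φ hm)
  have hdvd : ∀ d : dvd φ M.natAbs, M ∣ Multiplicative.toAdd (φ d) := fun d =>
    Int.natAbs_dvd.1 (mem_dvd.1 d.2)
  let π : dvd φ M.natAbs →* φ.ker :=
    { toFun := fun d => ⟨(d : G) * x ^ (-(Multiplicative.toAdd (φ d) / M)), by
        rw [MonoidHom.mem_ker]
        apply Multiplicative.toAdd.injective
        rw [map_mul, map_zpow, toAdd_mul, toAdd_zpow, ← hM, toAdd_one, smul_eq_mul, neg_mul,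
          Int.ediv_mul_cancel (hdvd d), add_neg_cancel]⟩
      map_one' := by
        apply Subtype.ext
        show ((1 : dvd φ M.natAbs) : G) * x ^ (-(Multiplicative.toAdd (φ ((1 : dvd φ M.natAbs) : G)) / M)) = 1
        rw [Subgroup.coe_one, map_one, toAdd_one, Int.zero_ediv, neg_zero, zpow_zero, one_mul]
      map_mul' := by
        intro d e
        apply Subtype.ext
        show ((d * e : dvd φ M.natAbs) : G) *
            x ^ (-(Multiplicative.toAdd (φ ((d * e : dvd φ M.natAbs) : G)) / M)) =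
          ((d : G) * x ^ (-(Multiplicative.toAdd (φ d) / M))) *
            ((e : G) * x ^ (-(Multiplicative.toAdd (φ e) / M)))
        rw [Subgroup.coe_mul, map_mul, toAdd_mul, Int.add_ediv_of_dvd_left (hdvd d), neg_add,
          _root_.zpow_add]
        have h1 := ((hx (e : G)).zpow_left (-(Multiplicative.toAdd (φ d) / M))).eq
        rw [mul_assoc, mul_assoc, ← mul_assoc (x ^ _) (e : G), h1]
        simp only [mul_assoc] }
  have key : ∀ (l : Type) [Fintype l] [DecidableEq l] (σ : G →* Matrix l l ℂ), IsU σ →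
      σ x = 1 → (Fintype.card X : ℤ) * sig (ev σ A) =
        Fintype.card l * sig (aug (resM (dvd φ M.natAbs) r hr A)) := by
    intro l _ _ σ hσ hσx
    rw [← sig_ind_dvd φ hm r hr ha hA hg hσ, sig_ind _ r hr ha hA hg (isU_sub hσ)]
    have h1 : σ.comp (dvd φ M.natAbs).subtype = (σ.comp φ.ker.subtype).comp π := by
      ext d : 1
      show σ d = σ ((d : G) * x ^ (-(Multiplicative.toAdd (φ d) / M)))
      have h2 : x ∈ σ.ker := hσx
      have h3 : σ (x ^ (-(Multiplicative.toAdd (φ d) / M))) = 1 := σ.ker.zpow_mem h2 _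
      rw [map_mul, h3, mul_one]
    rw [h1, ← ev_pushM π (σ.comp φ.ker.subtype)]
    have h2 := hK _ (pushM π (resM (dvd φ M.natAbs) r hr A)) a b ha
      (herm_pushM π (herm_resM _ r hr hA)) (gapA_pushM π (gapA_resM _ r hr hg)) l
      (σ.comp φ.ker.subtype) (isU_sub hσ)
    rw [aug_pushM] at h2
    exact h2
  obtain ⟨ρ', hρ'U, hρ'0, hρ'1, hρ'c⟩ := exists_flow ρ hρ φ x hx hφ
  have h1 := sig_ev_path ha hA hg hρ'U hρ'c 0 1
  rw [hρ'0] at h1
  rw [h1]
  have h2 := key κ (ρ' 1) (hρ'U 1) hρ'1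
  have h3 := key Unit 1 isU_one rfl
  have h4 := sig_ev_const ha hA hg (ρ := (1 : G →* Matrix Unit Unit ℂ)) isU_one (by
    intro g
    rw [MonoidHom.one_apply, trace_one])
  rw [Fintype.card_unit, Nat.cast_one, one_mul] at h3 h4
  rw [← h3, h4] at h2
  have h5 : (Fintype.card X : ℤ) ≠ 0 := Nat.cast_ne_zero.2 Fintype.card_ne_zero
  apply mul_left_cancel₀ h5
  rw [h2]
  ring

end Pool.Agent.H748.Art
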