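import Pool.Agent.H748.Art.Lin

/-!
# Homomorphisms of groups, rigidity
-/

set_option autoImplicit false
set_option linter.unusedSectionVars false

namespace Pool.Agent.H748.Art

open Polynomial Matrix Filter Pool.Agent.H748.Sig

variable {G Q : Type*} [Group G] [Group Q]
variable {ι κ l : Type} [Fintype ι] [DecidableEq ι] [Fintype κ] [DecidableEq κ] [Fintype l]
  [DecidableEq l]

theorem T_star (χ : G → ℂ) (x y : MonoidAlgebra ℂ G) (h : ∀ g, x.coeff g = star (y.coeff g⁻¹)) :
    T χ x = star (T (fun g => star (χ g⁻¹)) y) := by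
  rw [T_apply, T_apply]
  unfold Finsupp.sum
  rw [star_sum]
  refine Finset.sum_bij (fun g _ => g⁻¹) ?_ ?_ ?_ ?_
  · intro g hg
    rw [Finsupp.mem_support_iff] at hg ⊢
    intro hc
    apply hg
    rw [h, hc, star_zero]
  · intro a _ b _ hab
    exact inv_injective hab
  · intro b hb
    refine ⟨b⁻¹, ?_, inv_inv b⟩
    rw [Finsupp.mem_support_iff] at hb ⊢
    rw [h, inv_inv]
    intro hc
    apply hb
    rw [star_eq_zero] at hc
    exact hc
  · intro g _
    rw [star_mul', inv_inv, star_star, h g]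

/-- the homomorphism of group algebras induced by a homomorphism of groups -/
noncomputable def push (f : G →* Q) : MonoidAlgebra ℂ G →ₐ[ℂ] MonoidAlgebra ℂ Q :=
  MonoidAlgebra.lift ℂ (MonoidAlgebra ℂ Q) G ((MonoidAlgebra.of ℂ Q).comp f)

theorem push_single (f : G →* Q) (g : G) (c : ℂ) :
    push f (MonoidAlgebra.single g c) = MonoidAlgebra.single (f g) c := by
  rw [push, MonoidAlgebra.lift_single]
  show c • MonoidAlgebra.single (f g) (1 : ℂ) = _
  rw [MonoidAlgebra.smul_single, smul_eq_mul, mul_one]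

theorem lift_push {B : Type*} [Ring B] [Algebra ℂ B] (f : G →* Q) (σ : Q →* B)
    (x : MonoidAlgebra ℂ G) :
    MonoidAlgebra.lift ℂ B Q σ (push f x) = MonoidAlgebra.lift ℂ B G (σ.comp f) x := by
  induction x using MonoidAlgebra.induction_linear with
  | zero => simp
  | add x y hx hy => simp only [map_add, hx, hy]
  | single g c =>
    rw [push_single, MonoidAlgebra.lift_single, MonoidAlgebra.lift_single]
    rfl

open Classical in
theorem push_coeff (f : G →* Q) (x : MonoidAlgebra ℂ G) (q : Q) :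
    (push f x).coeff q = T (fun g => if f g = q then 1 else 0) x := by
  induction x using MonoidAlgebra.induction_linear with
  | zero => simp
  | add x y hx hy => rw [map_add, MonoidAlgebra.coeff_add, Finsupp.add_apply, hx, hy, map_add]
  | single g c =>
    rw [push_single, T_single, MonoidAlgebra.coeff_single, Finsupp.single_apply]
    split_ifs <;> simp

/-- the homomorphism of matrix algebras induced by a homomorphism of groups -/
noncomputable def pushM (f : G →* Q) :
    Matrix ι ι (MonoidAlgebra ℂ G) →ₐ[ℂ] Matrix ι ι (MonoidAlgebra ℂ Q) := (push f).mapMatrix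

theorem ev_pushM (f : G →* Q) (σ : Q →* Matrix κ κ ℂ) (A : Matrix ι ι (MonoidAlgebra ℂ G)) :
    ev σ (pushM f A) = ev (σ.comp f) A := by
  ext p q
  rw [ev_apply, ev_apply]
  exact congrFun (congrFun (lift_push f σ (A p.1 q.1)) p.2) q.2

theorem aug_pushM (f : G →* Q) (A : Matrix ι ι (MonoidAlgebra ℂ G)) :
    aug (pushM f A) = aug A := by
  ext p q
  show MonoidAlgebra.lift ℂ ℂ Q 1 (push f (A p q)) = MonoidAlgebra.lift ℂ ℂ G 1 (A p q)
  rw [lift_push]
  rfl

theorem herm_pushM (f : G →* Q) {A : Matrix ι ι (MonoidAlgebra ℂ G)} (hA : Herm A) :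
    Herm (pushM f A) := by
  classical
  intro i j q
  show (push f (A i j)).coeff q = star ((push f (A j i)).coeff q⁻¹)
  rw [push_coeff, push_coeff, T_star _ _ _ (fun g => hA i j g)]
  congr 3
  funext g
  rw [map_inv]
  by_cases h : (f g)⁻¹ = q
  · rw [if_pos h, if_pos (by rw [← h, inv_inv]), star_one]
  · rw [if_neg h, if_neg (by intro hc; exact h (by rw [hc, inv_inv])), star_zero]

theorem isU_comp {f : G →* Q} {σ : Q →* Matrix κ κ ℂ} (hσ : IsU σ) : IsU (σ.comp f) := by
  intro g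
  show (σ (f g))ᴴ = σ (f g⁻¹)
  rw [hσ, map_inv f]

theorem gapA_pushM (f : G →* Q) {A : Matrix ι ι (MonoidAlgebra ℂ G)} {a b : ℝ}
    (hA : GapA A a b) : GapA (pushM f A) a b := by
  intro κ _ _ σ hσ
  rw [ev_pushM]
  exact hA κ (σ.comp f) (isU_comp hσ)

/-- signatures in unitary representations are given by the augmentation -/
def Rig (G : Type*) [Group G] : Prop :=
  ∀ (ι : Type) [Fintype ι] [DecidableEq ι] (A : Matrix ι ι (MonoidAlgebra ℂ G)) (a b : ℝ),
    0 < a → Herm A → GapA A a b → ∀ (κ : Type) [Fintype κ] [DecidableEq κ]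
      (ρ : G →* Matrix κ κ ℂ), IsU ρ → sig (ev ρ A) = Fintype.card κ * sig (aug A)

theorem trace_ev (ρ : G →* Matrix κ κ ℂ) (B : Matrix ι ι (MonoidAlgebra ℂ G)) :
    (ev ρ B).trace = T (fun g => (ρ g).trace) B.trace := by
  rw [← aug_tw, ← TT_one, TT_tw, TT_eq]
  simp only [one_mul]

theorem trace_aug (B : Matrix ι ι (MonoidAlgebra ℂ G)) :
    (aug B).trace = T (fun _ => 1) B.trace := by
  rw [← TT_one, TT_eq]

theorem aeval_ev (ρ : G →* Matrix κ κ ℂ) (A : Matrix ι ι (MonoidAlgebra ℂ G)) (P : ℝ[X]) :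
    aeval (ev ρ A) P = ev ρ (aeval A P) :=
  aeval_algHom_apply ((ev ρ).restrictScalars ℝ) A P

theorem aeval_aug (A : Matrix ι ι (MonoidAlgebra ℂ G)) (P : ℝ[X]) :
    aeval (aug A) P = aug (aeval A P) :=
  aeval_algHom_apply (aug.restrictScalars ℝ) A P

/-- representations with the same character -/
theorem sig_ev_congr {A : Matrix ι ι (MonoidAlgebra ℂ G)} {a b : ℝ} (ha : 0 < a) (hA : Herm A)
    (hg : GapA A a b) {ρ : G →* Matrix κ κ ℂ} {σ : G →* Matrix l l ℂ} (hρ : IsU ρ) (hσ : IsU σ)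
    (h : ∀ g, (ρ g).trace = (σ g).trace) : sig (ev ρ A) = sig (ev σ A) := by
  have h1 := sig_two ha (hA.ev hρ) (hA.ev hσ) (hg κ ρ hρ) (hg l σ hσ) 1 1 (by
    intro P
    rw [aeval_ev, aeval_ev, trace_ev, trace_ev]
    congr 3
    funext g
    exact h g)
  simpa using h1

/-- representations with the character `d` -/
theorem sig_ev_const {A : Matrix ι ι (MonoidAlgebra ℂ G)} {a b : ℝ} (ha : 0 < a) (hA : Herm A)
    (hg : GapA A a b) {ρ : G →* Matrix κ κ ℂ} (hρ : IsU ρ)
    (h : ∀ g, (ρ g).trace = Fintype.card κ) : sig (ev ρ A) = Fintype.card κ * sig (aug A) := by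
  have h1 := sig_two ha (hA.ev hρ) hA.aug (hg κ ρ hρ) hg.aug 1 (Fintype.card κ) (by
    intro P
    rw [aeval_ev, aeval_aug, trace_ev, trace_aug, Int.cast_one, one_mul, Int.cast_natCast,
      ← T_const_mul]
    congr 2
    funext g
    rw [h g, mul_one])
  rw [one_mul] at h1
  exact h1

theorem rig_of_subsingleton [Subsingleton G] : Rig G := by
  intro ι _ _ A a b ha hA hg κ _ _ ρ hρ
  refine sig_ev_const ha hA hg hρ fun g => ?_
  rw [Subsingleton.elim g 1, map_one, trace_one]

theorem rig_of_mulEquiv (e : G ≃* Q) (h : Rig Q) : Rig G := by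
  intro ι _ _ A a b ha hA hg κ _ _ ρ hρ
  have h1 := h ι (pushM e.toMonoidHom A) a b ha (herm_pushM _ hA) (gapA_pushM _ hg) κ
    (ρ.comp e.symm.toMonoidHom) (isU_comp hρ)
  rw [ev_pushM, aug_pushM] at h1
  have h2 : (ρ.comp e.symm.toMonoidHom).comp e.toMonoidHom = ρ := by
    ext g : 1
    show ρ (e.symm (e g)) = ρ g
    rw [e.symm_apply_apply]
  rw [h2] at h1
  exact h1

end Pool.Agent.H748.Art
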