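import Pool.Agent.H748.Art.Form
import Pool.Agent.H748.Art.Mor

/-!
# Poincaré complexes over group algebras have uniform spectral gaps
-/

set_option autoImplicit false
set_option linter.unusedSectionVars false

namespace Pool.Agent.H748.Art

open Polynomial Matrix Filter Pool.Agent.H748.Sig

variable {G : Type*} [Group G]
variable {ι κ l : Type} [Fintype ι] [DecidableEq ι] [Fintype κ] [DecidableEq κ] [Fintype l]
  [DecidableEq l]

/-- the involution `∑ c_g g ↦ ∑ conj(c_g) g⁻¹` -/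
noncomputable def adjE (x : MonoidAlgebra ℂ G) : MonoidAlgebra ℂ G :=
  MonoidAlgebra.ofCoeff
    (Finsupp.equivMapDomain (Equiv.inv G) (x.coeff.mapRange star (star_zero ℂ)))

theorem adjE_coeff (x : MonoidAlgebra ℂ G) (g : G) : (adjE x).coeff g = star (x.coeff g⁻¹) := rfl

/-- the adjoint of a matrix over the group algebra -/
noncomputable def adj (A : Matrix ι ι (MonoidAlgebra ℂ G)) : Matrix ι ι (MonoidAlgebra ℂ G) :=
  Matrix.of fun i j => adjE (A j i)

theorem adj_coeff (A : Matrix ι ι (MonoidAlgebra ℂ G)) (i j : ι) (g : G) :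
    (adj A i j).coeff g = star ((A j i).coeff g⁻¹) := rfl

theorem lift_eq_T (ρ : G →* Matrix κ κ ℂ) (x : MonoidAlgebra ℂ G) (k k' : κ) :
    MonoidAlgebra.lift ℂ (Matrix κ κ ℂ) G ρ x k k' = T (fun g => ρ g k k') x := by
  rw [MonoidAlgebra.lift_apply, T_apply]
  simp only [Finsupp.sum, Matrix.sum_apply, Matrix.smul_apply, smul_eq_mul]

theorem ev_adj {ρ : G →* Matrix κ κ ℂ} (hρ : IsU ρ) (A : Matrix ι ι (MonoidAlgebra ℂ G)) :
    ev ρ (adj A) = (ev ρ A)ᴴ := by
  ext p q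
  rw [conjTranspose_apply, ev_apply, ev_apply, lift_eq_T, lift_eq_T,
    T_star _ (adj A p.1 q.1) (A q.1 p.1) (fun g => adj_coeff A p.1 q.1 g)]
  congr 3
  funext g
  have h1 := congrFun (congrFun (hρ g⁻¹) q.2) p.2
  rw [conjTranspose_apply, inv_inv] at h1
  exact h1

theorem herm_add {A B : Matrix ι ι (MonoidAlgebra ℂ G)} (hA : Herm A) (hB : Herm B) :
    Herm (A + B) := by
  intro i j g
  rw [Matrix.add_apply, Matrix.add_apply, MonoidAlgebra.coeff_add, MonoidAlgebra.coeff_add,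
    Finsupp.add_apply, Finsupp.add_apply, star_add, hA i j g, hB i j g]

theorem herm_add_adj (A : Matrix ι ι (MonoidAlgebra ℂ G)) : Herm (A + adj A) := by
  intro i j g
  rw [Matrix.add_apply, Matrix.add_apply, MonoidAlgebra.coeff_add, MonoidAlgebra.coeff_add,
    Finsupp.add_apply, Finsupp.add_apply, star_add, adj_coeff, adj_coeff, star_star, inv_inv,
    add_comm]

theorem herm_of_adj {A : Matrix ι ι (MonoidAlgebra ℂ G)} (h : adj A = A) : Herm A := by
  intro i j g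
  rw [← adj_coeff, h]

theorem nr_sq_sum (w : κ → ℂ) : nr w ^ 2 = ∑ k, ‖w k‖ ^ 2 := by
  unfold nr
  rw [EuclideanSpace.norm_eq, Real.sq_sqrt (Finset.sum_nonneg fun _ _ => sq_nonneg _)]

theorem nr_sq_prod (w : ι × κ → ℂ) : nr w ^ 2 = ∑ i, nr (fun k => w (i, k)) ^ 2 := by
  rw [nr_sq_sum, Fintype.sum_prod_type]
  exact Finset.sum_congr rfl fun i _ => (nr_sq_sum _).symm

theorem nr_le_bn (w : ι × κ → ℂ) : nr w ≤ bn w := by
  refine le_of_sq_le_sq ?_ (bn_nonneg w)
  rw [nr_sq_prod]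
  unfold bn
  exact Finset.sum_sq_le_sq_sum_of_nonneg fun i _ => nr_nonneg _

theorem bn_le (w : ι × κ → ℂ) : bn w ≤ Fintype.card ι * nr w := by
  unfold bn
  rw [← nsmul_eq_mul, ← Finset.card_univ, ← Finset.sum_const]
  refine Finset.sum_le_sum fun i _ => ?_
  refine le_of_sq_le_sq ?_ (nr_nonneg w)
  rw [nr_sq_prod]
  exact Finset.single_le_sum (f := fun i => nr (fun k => w (i, k)) ^ 2)
    (fun i _ => sq_nonneg _) (Finset.mem_univ i)

theorem dot_le (v w : κ → ℂ) : ‖star v ⬝ᵥ w‖ ≤ nr v * nr w := by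
  have h1 : (inner ℂ (WithLp.toLp 2 v : EuclideanSpace ℂ κ) (WithLp.toLp 2 w) : ℂ) =
      star v ⬝ᵥ w := by
    rw [EuclideanSpace.inner_eq_star_dotProduct, dotProduct_comm]
  rw [← h1]
  exact norm_inner_le_norm _ _

theorem ev_bound {ρ : G →* Matrix κ κ ℂ} (hρ : IsU ρ) (A : Matrix ι ι (MonoidAlgebra ℂ G))
    (v : ι × κ → ℂ) : nr (ev ρ A *ᵥ v) ≤ L1 A * Fintype.card ι * nr v := by
  refine (nr_le_bn _).trans ((ev_mulVec_le hρ A v).trans ?_)
  rw [mul_assoc]
  exact mul_le_mul_of_nonneg_left (bn_le v) (L1_nonneg A)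

theorem nr_pos {v : κ → ℂ} (hv : v ≠ 0) : 0 < nr v := by
  rcases (nr_nonneg v).lt_or_eq with h | h
  · exact h
  · exfalso
    apply hv
    unfold nr at h
    have h2 := norm_eq_zero.1 h.symm
    funext k
    exact congrArg (fun w : EuclideanSpace ℂ κ => w k) h2

/-- contractible complexes have a spectral gap -/
theorem gap_of_contraction {Δ Γ : Matrix ι ι (MonoidAlgebra ℂ G)} (hΔ : Δ * Δ = 0)
    (h : Δ * Γ + Γ * Δ = 1) {ρ : G →* Matrix κ κ ℂ} (hρ : IsU ρ) {x : ℝ} {v : ι × κ → ℂ}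
    (hv : v ≠ 0) (hx : ev ρ (Δ + adj Δ) *ᵥ v = (x : ℂ) • v) :
    1 / (2 * (L1 Γ * Fintype.card ι) + 1) ≤ |x| := by
  set P := ev ρ Δ with hP
  set Q := ev ρ Γ with hQ
  set C := L1 Γ * Fintype.card ι with hC
  have hC0 : 0 ≤ C := mul_nonneg (L1_nonneg Γ) (Nat.cast_nonneg _)
  have hPP : P * P = 0 := by rw [hP, ← map_mul, hΔ, map_zero]
  have hPQ : P * Q + Q * P = 1 := by rw [hP, hQ, ← map_mul, ← map_mul, ← map_add, h, map_one]
  have hx' : P *ᵥ v + Pᴴ *ᵥ v = (x : ℂ) • v := by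
    rw [← hx, map_add, ev_adj hρ, add_mulVec]
  have hsum : nr (P *ᵥ v) ^ 2 + nr (Pᴴ *ᵥ v) ^ 2 = x ^ 2 * nr v ^ 2 := by
    have h1 : ((nr (P *ᵥ v) ^ 2 + nr (Pᴴ *ᵥ v) ^ 2 : ℝ) : ℂ) = ((nr ((x : ℂ) • v) ^ 2 : ℝ) : ℂ) := by
      rw [nr_sq, ← hx', star_add, add_dotProduct, dotProduct_add, dotProduct_add]
      have h2 : star (P *ᵥ v) ⬝ᵥ Pᴴ *ᵥ v = 0 := by
        rw [star_mulVec, ← dotProduct_mulVec, mulVec_mulVec, ← conjTranspose_mul, hPP,
          conjTranspose_zero, zero_mulVec, dotProduct_zero]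
      have h3 : star (Pᴴ *ᵥ v) ⬝ᵥ P *ᵥ v = 0 := by
        rw [star_mulVec, conjTranspose_conjTranspose, ← dotProduct_mulVec, mulVec_mulVec, hPP,
          zero_mulVec, dotProduct_zero]
      rw [h2, h3, ← nr_sq, ← nr_sq]
      push_cast
      ring
    have h4 : nr (P *ᵥ v) ^ 2 + nr (Pᴴ *ᵥ v) ^ 2 = nr ((x : ℂ) • v) ^ 2 := by exact_mod_cast h1
    rw [h4, nr_smul, Complex.norm_real, mul_pow, Real.norm_eq_abs, sq_abs]
  have hb1 : nr (P *ᵥ v) ≤ |x| * nr v := by
    refine le_of_sq_le_sq ?_ (mul_nonneg (abs_nonneg _) (nr_nonneg _))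
    rw [mul_pow, sq_abs, ← hsum]
    have := sq_nonneg (nr (Pᴴ *ᵥ v))
    linarith
  have hb2 : nr (Pᴴ *ᵥ v) ≤ |x| * nr v := by
    refine le_of_sq_le_sq ?_ (mul_nonneg (abs_nonneg _) (nr_nonneg _))
    rw [mul_pow, sq_abs, ← hsum]
    have := sq_nonneg (nr (P *ᵥ v))
    linarith
  have hvpos := nr_pos hv
  have h5 : nr v ^ 2 ≤ 2 * C * |x| * nr v ^ 2 := by
    have h6 : ((nr v ^ 2 : ℝ) : ℂ) = star (Pᴴ *ᵥ v) ⬝ᵥ (Q *ᵥ v) + star v ⬝ᵥ (Q *ᵥ (P *ᵥ v)) := by
      rw [nr_sq, star_mulVec, conjTranspose_conjTranspose, ← dotProduct_mulVec, mulVec_mulVec,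
        mulVec_mulVec, ← dotProduct_add, ← add_mulVec, hPQ, one_mulVec]
    have h7 : nr v ^ 2 = ‖((nr v ^ 2 : ℝ) : ℂ)‖ := by
      rw [Complex.norm_real, Real.norm_eq_abs, abs_of_nonneg (sq_nonneg _)]
    have h8 := dot_le (Pᴴ *ᵥ v) (Q *ᵥ v)
    have h9 := dot_le v (Q *ᵥ (P *ᵥ v))
    have h10 := ev_bound hρ Γ v
    have h11 := ev_bound hρ Γ (P *ᵥ v)
    rw [← hQ, ← hC] at h10 h11
    have h12 : nr (Pᴴ *ᵥ v) * nr (Q *ᵥ v) ≤ (|x| * nr v) * (C * nr v) :=
      mul_le_mul hb2 h10 (nr_nonneg _) (mul_nonneg (abs_nonneg _) (nr_nonneg _))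
    have h13 : nr v * nr (Q *ᵥ (P *ᵥ v)) ≤ nr v * (C * (|x| * nr v)) :=
      mul_le_mul_of_nonneg_left (h11.trans (mul_le_mul_of_nonneg_left hb1 hC0)) (nr_nonneg _)
    calc nr v ^ 2 = ‖((nr v ^ 2 : ℝ) : ℂ)‖ := h7
      _ = ‖star (Pᴴ *ᵥ v) ⬝ᵥ (Q *ᵥ v) + star v ⬝ᵥ (Q *ᵥ (P *ᵥ v))‖ := by rw [h6]
      _ ≤ ‖star (Pᴴ *ᵥ v) ⬝ᵥ (Q *ᵥ v)‖ + ‖star v ⬝ᵥ (Q *ᵥ (P *ᵥ v))‖ := norm_add_le _ _
      _ ≤ (|x| * nr v) * (C * nr v) + nr v * (C * (|x| * nr v)) := by linarith
      _ = _ := by ring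
  have h14 : 1 ≤ 2 * C * |x| := by
    have h15 : 0 < nr v ^ 2 := by positivity
    by_contra hc
    push Not at hc
    nlinarith
  rw [div_le_iff₀ (by positivity)]
  have := abs_nonneg x
  nlinarith

/-- the upper bound of the gap -/
theorem upper_of_ev {ρ : G →* Matrix κ κ ℂ} (hρ : IsU ρ) {A : Matrix ι ι (MonoidAlgebra ℂ G)}
    {x : ℝ} {v : ι × κ → ℂ} (hv : v ≠ 0) (hx : ev ρ A *ᵥ v = (x : ℂ) • v) : |x| ≤ L1 A := by
  have hbv := bn_pos hv
  have h2 : |x| * bn v ≤ L1 A * bn v := by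
    calc |x| * bn v = bn ((x : ℂ) • v) := by rw [bn_smul, Complex.norm_real, Real.norm_eq_abs]
      _ = bn (ev ρ A *ᵥ v) := by rw [hx]
      _ ≤ _ := ev_mulVec_le hρ A v
  exact le_of_mul_le_mul_right h2 hbv

theorem adjE_add (x y : MonoidAlgebra ℂ G) : adjE (x + y) = adjE x + adjE y := by
  ext g
  rw [adjE_coeff, MonoidAlgebra.coeff_add, MonoidAlgebra.coeff_add, Finsupp.add_apply,
    Finsupp.add_apply, star_add, adjE_coeff, adjE_coeff]

theorem adjE_zero : adjE (0 : MonoidAlgebra ℂ G) = 0 := by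
  ext g
  rw [adjE_coeff]
  simp

theorem adjE_sum {α : Type*} (s : Finset α) (x : α → MonoidAlgebra ℂ G) :
    adjE (∑ a ∈ s, x a) = ∑ a ∈ s, adjE (x a) := by
  classical
  induction s using Finset.induction_on with
  | empty => rw [Finset.sum_empty, Finset.sum_empty, adjE_zero]
  | insert a s ha ih => rw [Finset.sum_insert ha, Finset.sum_insert ha, adjE_add, ih]

theorem adjE_single (g : G) (c : ℂ) :
    adjE (MonoidAlgebra.single g c) = MonoidAlgebra.single g⁻¹ (star c) := by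
  classical
  ext h
  rw [adjE_coeff, MonoidAlgebra.coeff_single, MonoidAlgebra.coeff_single, Finsupp.single_apply,
    Finsupp.single_apply]
  by_cases h1 : g = h⁻¹
  · rw [if_pos h1, if_pos (by rw [h1, inv_inv])]
  · rw [if_neg h1, if_neg (by intro hc; exact h1 (by rw [← hc, inv_inv])), star_zero]

theorem adjE_mul (x y : MonoidAlgebra ℂ G) : adjE (x * y) = adjE y * adjE x := by
  induction x using MonoidAlgebra.induction_linear with
  | zero => rw [zero_mul, adjE_zero, mul_zero]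
  | add x x' hx hx' => rw [add_mul, adjE_add, adjE_add, hx, hx', mul_add]
  | single g c =>
    induction y using MonoidAlgebra.induction_linear with
    | zero => rw [mul_zero, adjE_zero, zero_mul]
    | add y y' hy hy' => rw [mul_add, adjE_add, adjE_add, hy, hy', add_mul]
    | single h d =>
      rw [MonoidAlgebra.single_mul_single, adjE_single, adjE_single, adjE_single,
        MonoidAlgebra.single_mul_single, _root_.mul_inv_rev, star_mul]

theorem adj_mul (A B : Matrix ι ι (MonoidAlgebra ℂ G)) : adj (A * B) = adj B * adj A := by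
  ext i j : 1
  show adjE ((A * B) j i) = _
  rw [Matrix.mul_apply, Matrix.mul_apply, adjE_sum]
  exact Finset.sum_congr rfl fun k _ => adjE_mul _ _

theorem adj_zero : adj (0 : Matrix ι ι (MonoidAlgebra ℂ G)) = 0 := by
  ext i j : 1
  exact adjE_zero

theorem adjE_adjE (x : MonoidAlgebra ℂ G) : adjE (adjE x) = x := by
  ext g
  rw [adjE_coeff, adjE_coeff, star_star, inv_inv]

theorem adj_adj (A : Matrix ι ι (MonoidAlgebra ℂ G)) : adj (adj A) = A := by
  ext i j : 1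
  exact adjE_adjE _

/-- **Poincaré complexes have a uniform spectral gap.** -/
theorem gapA_complex {b S T p s : Matrix ι ι (MonoidAlgebra ℂ G)} (hb : b * b = 0)
    (hS : adj S = S) (hbS : b * S + S * adj b = 0) (hT : adj b * T + T * b = 0)
    (hp : b * p + p * b + S * T = 1) (hs : adj b * s + s * adj b + T * S = 1) :
    ∃ a : ℝ, 0 < a ∧ GapA (b + adj b + S) a (L1 (b + adj b + S)) := by
  have hbb : adj b * adj b = 0 := by rw [← adj_mul, hb, adj_zero]
  set Δ : Matrix (ι ⊕ ι) (ι ⊕ ι) (MonoidAlgebra ℂ G) := fromBlocks b S 0 (adj b) with hΔ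
  set Γ₀ : Matrix (ι ⊕ ι) (ι ⊕ ι) (MonoidAlgebra ℂ G) := fromBlocks p 0 T s with hΓ₀
  set N : Matrix (ι ⊕ ι) (ι ⊕ ι) (MonoidAlgebra ℂ G) := fromBlocks 0 (S * s + p * S) 0 0 with hN
  have h1 : Δ * Δ = 0 := by
    rw [hΔ, fromBlocks_multiply]
    simp only [Matrix.mul_zero, Matrix.zero_mul, add_zero, hb, hbS, hbb]
    exact fromBlocks_zero
  have h2 : Δ * Γ₀ + Γ₀ * Δ = 1 + N := by
    rw [hΔ, hΓ₀, hN, fromBlocks_multiply, fromBlocks_multiply, fromBlocks_add, ← fromBlocks_one,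
      fromBlocks_add]
    simp only [Matrix.mul_zero, Matrix.zero_mul, add_zero, zero_add]
    congr 1
    · rw [← hp]
      abel
    · rw [← hs]
      abel
  have h3 : Δ * N = N * Δ := by
    rw [hΔ, hN, fromBlocks_multiply, fromBlocks_multiply]
    simp only [Matrix.mul_zero, Matrix.zero_mul, add_zero, zero_add]
    congr 1
    have hbS' : b * S = -(S * adj b) := eq_neg_of_add_eq_zero_left hbS
    have hp' : b * p = 1 - S * T - p * b := by
      rw [← hp]
      abel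
    have hs' : adj b * s = 1 - T * S - s * adj b := by
      rw [← hs]
      abel
    calc b * (S * s + p * S) = (b * S) * s + (b * p) * S := by noncomm_ring
      _ = -(S * (adj b * s)) + (b * p) * S := by rw [hbS']; noncomm_ring
      _ = -(S * (1 - T * S - s * adj b)) + (1 - S * T - p * b) * S := by rw [hs', hp']
      _ = S * s * adj b - p * (b * S) := by noncomm_ring
      _ = (S * s + p * S) * adj b := by rw [hbS']; noncomm_ring
  have h4 : N * N = 0 := by
    rw [hN, fromBlocks_multiply]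
    simp only [Matrix.mul_zero, Matrix.zero_mul, add_zero]
    exact fromBlocks_zero
  have h5 : Δ * (Γ₀ * (1 - N)) + (Γ₀ * (1 - N)) * Δ = 1 := by
    calc Δ * (Γ₀ * (1 - N)) + (Γ₀ * (1 - N)) * Δ
        = (Δ * Γ₀) * (1 - N) + Γ₀ * (Δ - N * Δ) := by noncomm_ring
      _ = (Δ * Γ₀) * (1 - N) + Γ₀ * (Δ - Δ * N) := by rw [h3]
      _ = (Δ * Γ₀ + Γ₀ * Δ) * (1 - N) := by noncomm_ring
      _ = (1 + N) * (1 - N) := by rw [h2]
      _ = 1 - N * N := by noncomm_ring
      _ = 1 := by rw [h4, sub_zero]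
  refine ⟨1 / (2 * (L1 (Γ₀ * (1 - N)) * Fintype.card (ι ⊕ ι)) + 1), ?_, ?_⟩
  · have := L1_nonneg (Γ₀ * (1 - N))
    positivity
  · intro κ _ _ ρ hρ x v hv hx
    refine ⟨?_, upper_of_ev hρ hv hx⟩
    refine gap_of_contraction h1 h5 hρ (v := fun q => Sum.elim (fun i => v (i, q.2))
      (fun i => v (i, q.2)) q.1) ?_ ?_
    · intro hc
      apply hv
      funext q
      exact congrFun hc (Sum.inl q.1, q.2)
    · have hadj : adj Δ = fromBlocks (adj b) 0 S b := by
        ext i j : 1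
        rcases i with i | i <;> rcases j with j | j
        · rfl
        · exact adjE_zero
        · exact congrFun (congrFun hS i) j
        · exact congrFun (congrFun (adj_adj b) i) j
      rw [hadj, hΔ, fromBlocks_add, zero_add, add_zero]
      funext q
      obtain ⟨i, k⟩ := q
      have h6 := fun i' : ι => congrFun hx (i', k)
      have h7 : ∀ (i' : ι), ∑ j : ι, ∑ m : κ,
          (ev ρ (b + adj b) (i', k) (j, m) * v (j, m) + ev ρ S (i', k) (j, m) * v (j, m)) =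
          (x : ℂ) * v (i', k) := by
        intro i'
        have h8 := h6 i'
        rw [map_add] at h8
        rw [← Fintype.sum_prod_type (fun q : ι × κ => (ev ρ (b + adj b) (i', k) q * v q +
          ev ρ S (i', k) q * v q))]
        refine Eq.trans ?_ h8
        show _ = ∑ q, (ev ρ (b + adj b) + ev ρ S) (i', k) q * v q
        refine Finset.sum_congr rfl fun q _ => ?_
        rw [Matrix.add_apply, add_mul]
      rcases i with i | i
      · refine Eq.trans ?_ (h7 i)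
        show ∑ q : (ι ⊕ ι) × κ, _ * _ = _
        rw [Fintype.sum_prod_type, Fintype.sum_sum_type, ← Finset.sum_add_distrib]
        refine Finset.sum_congr rfl fun j _ => ?_
        rw [← Finset.sum_add_distrib]
        rfl
      · refine Eq.trans ?_ (h7 i)
        show ∑ q : (ι ⊕ ι) × κ, _ * _ = _
        rw [Fintype.sum_prod_type, Fintype.sum_sum_type, ← Finset.sum_add_distrib]
        refine Finset.sum_congr rfl fun j _ => ?_
        rw [← Finset.sum_add_distrib]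
        refine Finset.sum_congr rfl fun m _ => ?_
        rw [add_comm b (adj b), add_comm (_ * _) (_ * _)]
        rfl

end Pool.Agent.H748.Art
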