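import Pool.Agent.H748.Art.Ind

/-!
# Artin's induction theorem for the trivial character
-/

set_option autoImplicit false
set_option linter.unusedSectionVars false

namespace Pool.Agent.H748.Art

open Polynomial Matrix Filter Pool.Agent.H748.Sig

section
variable {Q : Type*} [Group Q] [Finite Q]

open Classical in
/-- indicator function of the generators of the cyclic subgroup `C` -/
noncomputable def gen (C : Subgroup Q) : Q → ℝ := fun y => if Subgroup.zpowers y = C then 1 else 0

open Classical in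
/-- indicator function of the cyclic subgroup generated by `z` -/
noncomputable def cyc (z : Q) : Q → ℝ := fun y => if y ∈ Subgroup.zpowers z then 1 else 0

theorem gen_mem (n : ℕ) : ∀ z : Q, orderOf z ≤ n →
    gen (Subgroup.zpowers z) ∈ Submodule.span ℝ (Set.range (cyc (Q := Q))) := by
  classical
  have := Fintype.ofFinite Q
  induction n with
  | zero =>
    intro z hz
    exact absurd (orderOf_pos z) (by omega)
  | succ n ih =>
    intro z hz
    set S : Finset (Subgroup Q) :=
      (Finset.univ.filter fun y : Q => y ∈ Subgroup.zpowers z).image Subgroup.zpowers with hS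
    have hzS : Subgroup.zpowers z ∈ S :=
      Finset.mem_image.2 ⟨z, Finset.mem_filter.2 ⟨Finset.mem_univ _,
        Subgroup.mem_zpowers z⟩, rfl⟩
    have h1 : cyc z = ∑ C ∈ S, gen C := by
      funext y
      rw [Finset.sum_apply]
      simp only [cyc, gen]
      rw [Finset.sum_ite_eq]
      by_cases hy : y ∈ Subgroup.zpowers z
      · rw [if_pos hy, if_pos]
        exact Finset.mem_image.2 ⟨y, Finset.mem_filter.2 ⟨Finset.mem_univ _, hy⟩, rfl⟩
      · rw [if_neg hy, if_neg]
        intro hc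
        obtain ⟨y', hy', h2⟩ := Finset.mem_image.1 hc
        apply hy
        have h3 : y ∈ Subgroup.zpowers y' := by rw [h2]; exact Subgroup.mem_zpowers y
        exact (Subgroup.zpowers_le.2 (Finset.mem_filter.1 hy').2) h3
    have h2 : gen (Subgroup.zpowers z) = cyc z - ∑ C ∈ S.erase (Subgroup.zpowers z), gen C := by
      rw [h1, ← Finset.add_sum_erase S _ hzS, add_sub_cancel_right]
    rw [h2]
    refine Submodule.sub_mem _ (Submodule.subset_span ⟨z, rfl⟩) (Submodule.sum_mem _ ?_)
    intro C hC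
    rw [Finset.mem_erase] at hC
    obtain ⟨y, hy, rfl⟩ := Finset.mem_image.1 hC.2
    apply ih
    have h3 : Subgroup.zpowers y < Subgroup.zpowers z :=
      lt_of_le_of_ne (Subgroup.zpowers_le.2 (Finset.mem_filter.1 hy).2) hC.1
    have h4 : (Subgroup.zpowers y : Set Q).ncard < (Subgroup.zpowers z : Set Q).ncard :=
      Set.ncard_lt_ncard h3 (Set.toFinite _)
    have h5 : (Subgroup.zpowers y : Set Q).ncard = orderOf y := Nat.card_zpowers y
    have h6 : (Subgroup.zpowers z : Set Q).ncard = orderOf z := Nat.card_zpowers z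
    omega

theorem exists_weight : ∃ w : Q → ℝ, ∀ y : Q, ∑ᶠ z, w z * cyc z y = 1 := by
  classical
  have := Fintype.ofFinite Q
  have h1 : (fun _ => 1 : Q → ℝ) ∈ Submodule.span ℝ (Set.range (cyc (Q := Q))) := by
    have h2 : (fun _ => 1 : Q → ℝ) = ∑ C ∈ (Finset.univ : Finset Q).image Subgroup.zpowers, gen C := by
      funext y
      rw [Finset.sum_apply]
      simp only [gen]
      rw [Finset.sum_ite_eq, if_pos]
      exact Finset.mem_image.2 ⟨y, Finset.mem_univ _, rfl⟩
    rw [h2]
    refine Submodule.sum_mem _ fun C hC => ?_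
    obtain ⟨y, -, rfl⟩ := Finset.mem_image.1 hC
    exact gen_mem (orderOf y) y le_rfl
  rw [Submodule.mem_span_range_iff_exists_fun] at h1
  obtain ⟨w, hw⟩ := h1
  refine ⟨w, fun y => ?_⟩
  rw [finsum_eq_sum_of_fintype]
  have h2 := congrFun hw y
  rw [Finset.sum_apply] at h2
  exact h2

end

variable {G Q : Type*} [Group G] [Group Q] {X : Type} [Fintype X] [DecidableEq X]

theorem sum_tr [Fintype Q] (π : G →* Q) (hπ : Function.Surjective π) (C : Subgroup Q) [Fintype C]
    (r : X → G) (hr : Tr (C.comap π) r) (F : Q → ℂ) :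
    ∑ q, F q = ∑ x : X, ∑ c : C, F (π (r x) * c) := by
  rw [← Fintype.sum_prod_type (fun p : X × C => F (π (r p.1) * p.2))]
  symm
  refine Function.Bijective.sum_comp (e := fun p : X × C => π (r p.1) * (p.2 : Q)) ⟨?_, ?_⟩ F
  · rintro ⟨x, c⟩ ⟨y, c'⟩ h
    obtain ⟨g, hg⟩ := hπ (π (r x) * (c : Q))
    obtain ⟨z, -, hz⟩ := hr g
    have h1 : x = z := hz x (by
      show π ((r x)⁻¹ * g) ∈ C
      rw [map_mul, map_inv, hg, inv_mul_cancel_left]
      exact c.2)
    have h2 : y = z := hz y (by
      show π ((r y)⁻¹ * g) ∈ C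
      rw [map_mul, map_inv, hg]
      have h3 : π (r x) * (c : Q) = π (r y) * (c' : Q) := h
      rw [h3, inv_mul_cancel_left]
      exact c'.2)
    subst h1
    subst h2
    have h3 : (c : Q) = c' := mul_left_cancel h
    rw [Subtype.coe_injective h3]
  · intro q
    obtain ⟨g, rfl⟩ := hπ q
    obtain ⟨x, hx, -⟩ := hr g
    refine ⟨(x, ⟨π ((r x)⁻¹ * g), hx⟩), ?_⟩
    show π (r x) * π ((r x)⁻¹ * g) = π g
    rw [← map_mul, mul_inv_cancel_left]

open Classical in
theorem sum_fix [Fintype Q] (π : G →* Q) (hπ : Function.Surjective π) (C : Subgroup Q)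
    (r : X → G) (hr : Tr (C.comap π) r) (g : G) :
    ∑ q : Q, (if q⁻¹ * π g * q ∈ C then (1 : ℂ) else 0) = Nat.card C * fix (C.comap π) r g := by
  rw [sum_tr π hπ C r hr, fix, Finset.mul_sum]
  refine Finset.sum_congr rfl fun x _ => ?_
  have h1 : ∀ c : C, (if (π (r x) * (c : Q))⁻¹ * π g * (π (r x) * (c : Q)) ∈ C then (1 : ℂ)
      else 0) = if (r x)⁻¹ * g * r x ∈ C.comap π then 1 else 0 := by
    intro c
    congr 1
    apply propext
    rw [Subgroup.mem_comap, map_mul, map_mul, map_inv]
    have h2 : (π (r x) * (c : Q))⁻¹ * π g * (π (r x) * (c : Q)) =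
        (c : Q)⁻¹ * ((π (r x))⁻¹ * π g * π (r x)) * c := by group
    rw [h2]
    constructor
    · intro h3
      have h4 := C.mul_mem (C.mul_mem c.2 h3) (C.inv_mem c.2)
      have h5 : (c : Q) * ((c : Q)⁻¹ * ((π (r x))⁻¹ * π g * π (r x)) * c) * (c : Q)⁻¹ =
        (π (r x))⁻¹ * π g * π (r x) := by group
      rwa [h5] at h4
    · intro h3
      exact C.mul_mem (C.mul_mem (C.inv_mem c.2) h3) c.2
  simp only [h1]
  rw [Finset.sum_const, nsmul_eq_mul, Finset.card_univ, Nat.card_eq_fintype_card]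

/-- A group is rigid if the preimages of the cyclic subgroups of a finite quotient are. -/
theorem rig_of_cyclic (N : Subgroup G) [N.Normal] [N.FiniteIndex]
    (h : ∀ z : G ⧸ N, Rig ((Subgroup.zpowers z).comap (QuotientGroup.mk' N))) : Rig G := by
  classical
  have := Fintype.ofFinite (G ⧸ N)
  obtain ⟨w, hw⟩ := exists_weight (Q := G ⧸ N)
  have hfi : ∀ z : G ⧸ N, ((Subgroup.zpowers z).comap (QuotientGroup.mk' N)).FiniteIndex := by
    intro z
    have h1 : N ≤ (Subgroup.zpowers z).comap (QuotientGroup.mk' N) := by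
      intro g hg
      show (g : G ⧸ N) ∈ Subgroup.zpowers z
      rw [(QuotientGroup.eq_one_iff g).2 hg]
      exact Subgroup.one_mem _
    exact Subgroup.finiteIndex_of_le h1
  choose X iX jX r hr _ using fun z => @exists_tr G _ _ (hfi z)
  refine rig_of_artin Finset.univ (fun z => w z * orderOf z / Fintype.card (G ⧸ N))
    (fun z => (Subgroup.zpowers z).comap (QuotientGroup.mk' N)) X r hr h ?_
  intro g
  have hcard : (Fintype.card (G ⧸ N) : ℂ) ≠ 0 := Nat.cast_ne_zero.2 Fintype.card_ne_zero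
  have h2 : ∀ z : G ⧸ N, (((w z * orderOf z / Fintype.card (G ⧸ N) : ℝ)) : ℂ) *
      fix ((Subgroup.zpowers z).comap (QuotientGroup.mk' N)) (r z) g =
      (Fintype.card (G ⧸ N) : ℂ)⁻¹ * ∑ q : G ⧸ N,
        (w z : ℂ) * (if q⁻¹ * (QuotientGroup.mk' N) g * q ∈ Subgroup.zpowers z then 1 else 0) := by
    intro z
    rw [← Finset.mul_sum, sum_fix (QuotientGroup.mk' N) (QuotientGroup.mk'_surjective N) _ (r z)
      (hr z) g, Nat.card_zpowers]
    push_cast
    ring
  rw [Finset.sum_congr rfl fun z _ => h2 z, ← Finset.mul_sum, Finset.sum_comm]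
  have h3 : ∀ q : G ⧸ N, ∑ z : G ⧸ N, (w z : ℂ) *
      (if q⁻¹ * (QuotientGroup.mk' N) g * q ∈ Subgroup.zpowers z then 1 else 0) = 1 := by
    intro q
    have h4 := hw (q⁻¹ * (QuotientGroup.mk' N) g * q)
    rw [finsum_eq_sum_of_fintype] at h4
    have h5 := congrArg (fun x : ℝ => (x : ℂ)) h4
    simp only [Complex.ofReal_sum, Complex.ofReal_mul, Complex.ofReal_one] at h5
    refine Eq.trans (Finset.sum_congr rfl fun z _ => ?_) h5
    congr 1
    unfold cyc
    split_ifs <;> simp
  rw [Finset.sum_congr rfl fun q _ => h3 q, Finset.sum_const, nsmul_eq_mul, mul_one,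
    Finset.card_univ, inv_mul_cancel₀ hcard]

end Pool.Agent.H748.Art
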