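import Pool.Agent.H748.Art.Tfva
import Pool.Agent.H748.Sig.Final

/-!
# Final statements for residually (torsion-free virtually abelian) groups
-/

set_option autoImplicit false
set_option linter.unusedSectionVars false

namespace Pool.Agent.H748.Art

open Polynomial Matrix Filter Pool.Agent.H748.Sig

universe u

variable {G : Type u} [Group G] {n : ℕ}

/-- the homomorphisms from `H` to torsion-free virtually abelian groups do not all kill `h` -/
def Seen {H : Type u} [Group H] (h : H) : Prop :=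
  ∃ (Q : Type u) (_ : Group Q) (f : H →* Q), TFVA Q ∧ f h ≠ 1

theorem det_of_seen {H : Type u} [Group H] [Group.FG H] (g : H)
    (hg : g ∉ {k : H | ¬ Seen k}) : Det {k : H | ¬ Seen k} g := by
  have h1 : Seen g := by
    by_contra hc
    exact hg hc
  obtain ⟨Q, iQ, f, hQ, hf⟩ := h1
  refine det_of_tfva hQ f g hf _ ?_
  intro k hk
  by_contra hc
  exact hk ⟨Q, iQ, f, hQ, hc⟩

theorem part1' {A : Matrix (Fin n) (Fin n) (MonoidAlgebra ℂ G)} (hA : IsHerm A) (hi : Inv A)
    {d e : ℕ} (ρ : G →* unitaryGroup (Fin d) ℂ) (σ : G →* unitaryGroup (Fin e) ℂ)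
    (hρ : ∀ S : Finset G, ∃ H : Subgroup G, H.FG ∧ (∀ s ∈ S, s ∈ H) ∧
      ∀ h : H, ρ h ≠ 1 → Seen h) :
    sig (ev (tens (um ρ) (um σ)) A) = d * sig (ev (um σ) A) := by
  obtain ⟨H, hfg, hP, A', a, ha, hA', hgap, -, -, hev⟩ := reduce hA hi
    (fun H => ∀ h : H, ρ h ≠ 1 → Seen h) hρ
  have hfg' : Group.FG H := (Group.fg_iff_subgroup_fg H).2 hfg
  rw [hev, hev]
  have h1 := res_tensor {k : H | ¬ Seen k} (fun g hg => det_of_seen g hg) ha hA' hgap
    (ρ := (um ρ).comp H.subtype) (σ := (um σ).comp H.subtype)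
    (fun h => um_isU ρ h) (by
      intro h hK
      by_contra hne
      have hne' : ρ h ≠ 1 := by
        intro hc
        apply hne
        show (ρ h).val = 1
        rw [hc]
        rfl
      exact hK (hP h hne')) (fun h => um_isU σ h)
  rw [Fintype.card_fin] at h1
  exact h1

theorem part2' (hG : ∀ H : Subgroup G, H.FG → ∀ h : H, h ≠ 1 → Seen h)
    {A : Matrix (Fin n) (Fin n) (MonoidAlgebra ℂ G)} (hA : IsHerm A) (hi : Inv A) :
    (∀ (d : ℕ) (ρ : G →* unitaryGroup (Fin d) ℂ), sig (ev (um ρ) A) = d * sig (aug A)) ∧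
    ∀ P : ℕ → ℝ[X],
      (∀ a b ε : ℝ, 0 < a → 0 < ε → ∀ᶠ k in atTop, ∀ x : ℝ, a ≤ |x| → |x| ≤ b →
        |(P k).eval x - ((SignType.sign x : SignType) : ℝ)| ≤ ε) →
      Tendsto (fun k => ∑ i, (aeval A (P k) i i).coeff 1) atTop
        (nhds ((sig (aug A) : ℤ) : ℂ)) := by
  obtain ⟨H, hfg, hP, A', a, ha, hA', hgap, -, hincl, hev⟩ := reduce hA hi
    (fun H => ∀ h : H, h ≠ 1 → Seen h)
    (fun S => ⟨Subgroup.closure (S : Set G), ⟨S, rfl⟩, fun s hs => Subgroup.subset_closure hs,
      hG _ ⟨S, rfl⟩⟩)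
  have hfg' : Group.FG H := (Group.fg_iff_subgroup_fg H).2 hfg
  have hdet : ∀ h : H, h ≠ 1 → Det {1} h := by
    intro h hne
    obtain ⟨Q, iQ, f, hQ, hf⟩ := hP h hne
    refine det_of_tfva hQ f h hf _ ?_
    intro k hk
    rw [Set.mem_singleton_iff.1 hk, map_one]
  have haug : aug A = aug A' := by
    ext i j
    show MonoidAlgebra.lift ℂ ℂ G 1 (A i j) = MonoidAlgebra.lift ℂ ℂ H 1 (A' i j)
    rw [← hincl, lift_one_incl]
  constructor
  · intro d ρ
    rw [hev, haug]
    have h1 := res_tensor {1} (fun g hg => hdet g hg) ha hA' hgap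
      (ρ := (um ρ).comp H.subtype) (σ := (1 : H →* Matrix Unit Unit ℂ))
      (fun h => um_isU ρ h) (by
        intro g hg
        rw [Set.mem_singleton_iff.1 hg, map_one]) isU_one
    have h2 := sig_ev_const ha hA' hgap (ρ := (1 : H →* Matrix Unit Unit ℂ)) isU_one (by
      intro g
      rw [MonoidHom.one_apply, trace_one])
    have h3 : sig (ev ((um ρ).comp H.subtype) A') =
        sig (ev (tens ((um ρ).comp H.subtype) (1 : H →* Matrix Unit Unit ℂ)) A') := by
      refine sig_ev_congr ha hA' hgap (fun h => um_isU ρ h)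
        (IsU.tens (fun h => um_isU ρ h) isU_one) fun g => ?_
      rw [trace_tens, MonoidHom.one_apply, trace_one, Fintype.card_unit, Nat.cast_one, mul_one]
    rw [h3, h1, h2, Fintype.card_fin, Fintype.card_unit, Nat.cast_one, one_mul]
  · intro P hPk
    have hAe : A = (incl H).mapMatrix A' := by
      ext i j : 1
      exact (hincl i j).symm
    have hcoeff : ∀ k, ∑ i, (aeval A (P k) i i).coeff 1 =
        ∑ i, (aeval A' (P k) i i).coeff (1 : H) := by
      intro k
      refine Finset.sum_congr rfl fun i _ => ?_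
      have h1 : aeval A (P k) = (incl H).mapMatrix (aeval A' (P k)) := by
        rw [hAe]
        exact aeval_algHom_apply ((incl H).mapMatrix.restrictScalars ℝ) A' (P k)
      rw [h1]
      exact incl_coeff H _ 1
    rw [haug, Metric.tendsto_nhds]
    intro δ hδ
    have hpos : 0 < δ / (n + 1) := by positivity
    filter_upwards [hPk a (L1 A') (δ / (n + 1)) ha hpos] with k hk
    rw [dist_eq_norm, hcoeff]
    refine lt_of_le_of_lt (res_l2 hdet ha hA' hgap hk) ?_
    rw [Fintype.card_fin, mul_div_assoc', div_lt_iff₀ (by positivity)]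
    nlinarith

/-- RFRS groups are locally residually (torsion-free virtually abelian) -/
theorem RFRS.seen (h : RFRS G) : ∀ H : Subgroup G, H.FG → ∀ x : H, x ≠ 1 → Seen x := by
  intro H _ x hx
  obtain ⟨N, hN, hq, hxN⟩ := h.exists_quot (x : G) (fun hc => hx (Subtype.ext hc))
  refine ⟨G ⧸ N, inferInstance, (QuotientGroup.mk' N).comp H.subtype, hq, ?_⟩
  intro hc
  exact hxN ((QuotientGroup.eq_one_iff (x : G)).1 hc)

end Pool.Agent.H748.Art
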