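import Pool.Agent.H748.Art.Fin
import Pool.Agent.H748.Art.Cplx

/-!
# Final statements for Poincaré complexes
-/

set_option autoImplicit false
set_option linter.unusedSectionVars false

namespace Pool.Agent.H748.Art

open Polynomial Matrix Filter Pool.Agent.H748.Sig

universe u

variable {G : Type u} [Group G] {n : ℕ}

/-- `A` comes from a matrix with a spectral gap over the group algebra of a finitely generated
subgroup with the property `Pr` -/
def Loc (Pr : Subgroup G → Prop) (A : Matrix (Fin n) (Fin n) (MonoidAlgebra ℂ G)) : Prop :=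
  ∃ H : Subgroup G, H.FG ∧ Pr H ∧ ∃ (A' : Matrix (Fin n) (Fin n) (MonoidAlgebra ℂ H)) (a : ℝ),
    0 < a ∧ Herm A' ∧ GapA A' a (L1 A') ∧ (∀ i j, incl H (A' i j) = A i j) ∧
    ∀ (κ : Type) [Fintype κ] [DecidableEq κ] (ρ : G →* Matrix κ κ ℂ),
      ev ρ A = ev (ρ.comp H.subtype) A'

theorem loc_tensor {A : Matrix (Fin n) (Fin n) (MonoidAlgebra ℂ G)}
    {d e : ℕ} (ρ : G →* unitaryGroup (Fin d) ℂ) (σ : G →* unitaryGroup (Fin e) ℂ)
    (hA : Loc (fun H => ∀ h : H, ρ h ≠ 1 → Seen h) A) :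
    sig (ev (tens (um ρ) (um σ)) A) = d * sig (ev (um σ) A) := by
  obtain ⟨H, hfg, hP, A', a, ha, hA', hgap, -, hev⟩ := hA
  have hfg' : Group.FG H := (Group.fg_iff_subgroup_fg H).2 hfg
  rw [hev, hev]
  have h1 := res_tensor {k : H | ¬ Seen k} (fun g hg => det_of_seen g hg) ha hA' hgap
    (ρ := (um ρ).comp H.subtype) (σ := (um σ).comp H.subtype)
    (fun h => um_isU ρ h) (by
      intro h hK
      by_contra hne
      have hne' : ρ h ≠ 1 := by
        intro hc
        apply hne
        show (ρ h).val = 1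
        rw [hc]
        rfl
      exact hK (hP h hne')) (fun h => um_isU σ h)
  rw [Fintype.card_fin] at h1
  exact h1

theorem loc_aug {A : Matrix (Fin n) (Fin n) (MonoidAlgebra ℂ G)}
    (hA : Loc (fun H => ∀ h : H, h ≠ 1 → Seen h) A) :
    (∀ (d : ℕ) (ρ : G →* unitaryGroup (Fin d) ℂ), sig (ev (um ρ) A) = d * sig (aug A)) ∧
    ∀ P : ℕ → ℝ[X],
      (∀ a b ε : ℝ, 0 < a → 0 < ε → ∀ᶠ k in atTop, ∀ x : ℝ, a ≤ |x| → |x| ≤ b →
        |(P k).eval x - ((SignType.sign x : SignType) : ℝ)| ≤ ε) →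
      Tendsto (fun k => ∑ i, (aeval A (P k) i i).coeff 1) atTop
        (nhds ((sig (aug A) : ℤ) : ℂ)) := by
  obtain ⟨H, hfg, hP, A', a, ha, hA', hgap, hincl, hev⟩ := hA
  have hfg' : Group.FG H := (Group.fg_iff_subgroup_fg H).2 hfg
  have hdet : ∀ h : H, h ≠ 1 → Det {1} h := by
    intro h hne
    obtain ⟨Q, iQ, f, hQ, hf⟩ := hP h hne
    refine det_of_tfva hQ f h hf _ ?_
    intro k hk
    rw [Set.mem_singleton_iff.1 hk, map_one]
  have haug : aug A = aug A' := by
    ext i j
    show MonoidAlgebra.lift ℂ ℂ G 1 (A i j) = MonoidAlgebra.lift ℂ ℂ H 1 (A' i j)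
    rw [← hincl, lift_one_incl]
  constructor
  · intro d ρ
    rw [hev, haug]
    have h1 := res_tensor {1} (fun g hg => hdet g hg) ha hA' hgap
      (ρ := (um ρ).comp H.subtype) (σ := (1 : H →* Matrix Unit Unit ℂ))
      (fun h => um_isU ρ h) (by
        intro g hg
        rw [Set.mem_singleton_iff.1 hg, map_one]) isU_one
    have h2 := sig_ev_const ha hA' hgap (ρ := (1 : H →* Matrix Unit Unit ℂ)) isU_one (by
      intro g
      rw [MonoidHom.one_apply, trace_one])
    have h3 : sig (ev ((um ρ).comp H.subtype) A') =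
        sig (ev (tens ((um ρ).comp H.subtype) (1 : H →* Matrix Unit Unit ℂ)) A') := by
      refine sig_ev_congr ha hA' hgap (fun h => um_isU ρ h)
        (IsU.tens (fun h => um_isU ρ h) isU_one) fun g => ?_
      rw [trace_tens, MonoidHom.one_apply, trace_one, Fintype.card_unit, Nat.cast_one, mul_one]
    rw [h3, h1, h2, Fintype.card_fin, Fintype.card_unit, Nat.cast_one, one_mul]
  · intro P hPk
    have hAe : A = (incl H).mapMatrix A' := by
      ext i j : 1
      exact (hincl i j).symm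
    have hcoeff : ∀ k, ∑ i, (aeval A (P k) i i).coeff 1 =
        ∑ i, (aeval A' (P k) i i).coeff (1 : H) := by
      intro k
      refine Finset.sum_congr rfl fun i _ => ?_
      have h1 : aeval A (P k) = (incl H).mapMatrix (aeval A' (P k)) := by
        rw [hAe]
        exact aeval_algHom_apply ((incl H).mapMatrix.restrictScalars ℝ) A' (P k)
      rw [h1]
      exact incl_coeff H _ 1
    rw [haug, Metric.tendsto_nhds]
    intro δ hδ
    have hpos : 0 < δ / (n + 1) := by positivity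
    filter_upwards [hPk a (L1 A') (δ / (n + 1)) ha hpos] with k hk
    rw [dist_eq_norm, hcoeff]
    refine lt_of_le_of_lt (res_l2 hdet ha hA' hgap hk) ?_
    rw [Fintype.card_fin, mul_div_assoc', div_lt_iff₀ (by positivity)]
    nlinarith

/-- **Symmetric Poincaré complexes** over `ℂ[G]` (in ungraded form): a based free module of rank
`n` with a differential `b`, and a self-adjoint chain equivalence `S` from the dual complex. -/
def IsPoincare (b S : Matrix (Fin n) (Fin n) (MonoidAlgebra ℂ G)) : Prop :=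
  b * b = 0 ∧ adj S = S ∧ b * S + S * adj b = 0 ∧
    ∃ T p s : Matrix (Fin n) (Fin n) (MonoidAlgebra ℂ G), adj b * T + T * b = 0 ∧
      b * p + p * b + S * T = 1 ∧ adj b * s + s * adj b + T * S = 1

theorem IsPoincare.herm {b S : Matrix (Fin n) (Fin n) (MonoidAlgebra ℂ G)}
    (h : IsPoincare b S) : Herm (b + adj b + S) :=
  herm_add (herm_add_adj b) (herm_of_adj h.2.1)

theorem IsPoincare.gap {b S : Matrix (Fin n) (Fin n) (MonoidAlgebra ℂ G)}
    (h : IsPoincare b S) : ∃ a : ℝ, 0 < a ∧ GapA (b + adj b + S) a (L1 (b + adj b + S)) := by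
  obtain ⟨h1, h2, h3, T, p, s, h4, h5, h6⟩ := h
  exact gapA_complex h1 h2 h3 h4 h5 h6

theorem incl_adjE (H : Subgroup G) (x : MonoidAlgebra ℂ H) : incl H (adjE x) = adjE (incl H x) := by
  induction x using MonoidAlgebra.induction_linear with
  | zero => rw [map_zero, adjE_zero, adjE_zero, map_zero]
  | add x y hx hy => rw [map_add, adjE_add, adjE_add, map_add, hx, hy]
  | single h c =>
    have h1 : ∀ (h : H) (c : ℂ), incl H (MonoidAlgebra.single h c) =
        MonoidAlgebra.single (h : G) c := by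
      intro h c
      rw [incl, MonoidAlgebra.lift_single]
      show c • MonoidAlgebra.single (h : G) (1 : ℂ) = _
      rw [MonoidAlgebra.smul_single, smul_eq_mul, mul_one]
    rw [h1, adjE_single, adjE_single, h1]
    rfl

/-- restriction of a Poincaré complex to a finitely generated subgroup -/
theorem IsPoincare.loc {b S : Matrix (Fin n) (Fin n) (MonoidAlgebra ℂ G)}
    (h : IsPoincare b S) (Pr : Subgroup G → Prop)
    (hPr : ∀ F : Finset G, ∃ H : Subgroup G, H.FG ∧ (∀ g ∈ F, g ∈ H) ∧ Pr H) :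
    Loc Pr (b + adj b + S) := by
  classical
  obtain ⟨h1, h2, h3, T, p, s, h4, h5, h6⟩ := h
  obtain ⟨F1, hF1⟩ := exists_fg b S
  obtain ⟨F2, hF2⟩ := exists_fg T p
  obtain ⟨F3, hF3⟩ := exists_fg s s
  obtain ⟨H, hfg, hFH, hPH⟩ := hPr (F1 ∪ F2 ∪ F3)
  have hex : ∀ A : Matrix (Fin n) (Fin n) (MonoidAlgebra ℂ G),
      (∀ i j g, (A i j).coeff g ≠ 0 → g ∈ F1 ∪ F2 ∪ F3) →
      (incl H).mapMatrix (Matrix.of fun i j => rest H (A i j)) = A := by
    intro A hA
    ext i j : 1
    exact incl_rest H _ fun g hg => hFH g (hA i j g hg)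
  have eb := hex b fun i j g hg => Finset.mem_union_left _ (Finset.mem_union_left _
    (hF1 i j g (Or.inl hg)))
  have eS := hex S fun i j g hg => Finset.mem_union_left _ (Finset.mem_union_left _
    (hF1 i j g (Or.inr hg)))
  have eT := hex T fun i j g hg => Finset.mem_union_left _ (Finset.mem_union_right _
    (hF2 i j g (Or.inl hg)))
  have ep := hex p fun i j g hg => Finset.mem_union_left _ (Finset.mem_union_right _
    (hF2 i j g (Or.inr hg)))
  have es := hex s fun i j g hg => Finset.mem_union_right _ (hF3 i j g (Or.inl hg))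
  set b' : Matrix (Fin n) (Fin n) (MonoidAlgebra ℂ H) := Matrix.of fun i j => rest H (b i j)
  set S' : Matrix (Fin n) (Fin n) (MonoidAlgebra ℂ H) := Matrix.of fun i j => rest H (S i j)
  set T' : Matrix (Fin n) (Fin n) (MonoidAlgebra ℂ H) := Matrix.of fun i j => rest H (T i j)
  set p' : Matrix (Fin n) (Fin n) (MonoidAlgebra ℂ H) := Matrix.of fun i j => rest H (p i j)
  set s' : Matrix (Fin n) (Fin n) (MonoidAlgebra ℂ H) := Matrix.of fun i j => rest H (s i j)
  have hadj : ∀ A : Matrix (Fin n) (Fin n) (MonoidAlgebra ℂ H),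
      (incl H).mapMatrix (adj A) = adj ((incl H).mapMatrix A) := by
    intro A
    ext i j : 1
    exact incl_adjE H (A j i)
  have hinj : Function.Injective
      ((incl H).mapMatrix : Matrix (Fin n) (Fin n) (MonoidAlgebra ℂ H) →ₐ[ℂ] _) :=
    fun M N hMN => Matrix.ext fun i j => incl_injective H (congrFun (congrFun hMN i) j)
  have hP' : IsPoincare b' S' := by
    refine ⟨?_, ?_, ?_, T', p', s', ?_, ?_, ?_⟩ <;> apply hinj
    · rw [map_mul, eb, h1, map_zero]
    · rw [hadj, eS, h2]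
    · rw [map_add, map_mul, map_mul, hadj, eb, eS, h3, map_zero]
    · rw [map_add, map_mul, map_mul, hadj, eb, eT, h4, map_zero]
    · rw [map_add, map_add, map_mul, map_mul, map_mul, eb, ep, eS, eT, h5, map_one]
    · rw [map_add, map_add, map_mul, map_mul, map_mul, hadj, eb, es, eS, eT, h6, map_one]
  obtain ⟨a, ha, hgap⟩ := hP'.gap
  have hA : (incl H).mapMatrix (b' + adj b' + S') = b + adj b + S := by
    rw [map_add, map_add, hadj, eb, eS]
  refine ⟨H, hfg, hPH, b' + adj b' + S', a, ha, hP'.herm, hgap, ?_, ?_⟩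
  · intro i j
    exact congrFun (congrFun hA i) j
  · intro κ _ _ ρ
    rw [← hA]
    ext x y
    rw [ev_apply, ev_apply]
    exact congrFun (congrFun (lift_incl H ρ ((b' + adj b' + S') x.1 y.1)) x.2) y.2

/-- the signature of the Hermitian form on the cohomology with coefficients in a matrix valued
function `τ` (a unitary representation) -/
noncomputable def cohSignature {κ : Type} [Fintype κ] [DecidableEq κ] (τ : G → Matrix κ κ ℂ)
    (b S : Matrix (Fin n) (Fin n) (MonoidAlgebra ℂ G)) : ℤ :=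
  formSignature (LinearMap.ker (Matrix.mulVecLin (value τ b)ᴴ)) (value τ S)

/-- the signature of the Hermitian form on the cohomology with trivial coefficients -/
noncomputable def augSignature (b S : Matrix (Fin n) (Fin n) (MonoidAlgebra ℂ G)) : ℤ :=
  formSignature (LinearMap.ker (Matrix.mulVecLin (augm b)ᴴ)) (augm S)

theorem IsPoincare.sig_ev {b S : Matrix (Fin n) (Fin n) (MonoidAlgebra ℂ G)}
    (h : IsPoincare b S) {κ : Type} [Fintype κ] [DecidableEq κ] (ρ : G →* Matrix κ κ ℂ)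
    (hρ : IsU ρ) : sig (ev ρ (b + adj b + S)) = cohSignature (fun g => ρ g) b S := by
  obtain ⟨a, ha, hgap⟩ := h.gap
  have hg := hgap κ ρ hρ
  rw [map_add, map_add, ev_adj hρ] at hg ⊢
  unfold cohSignature
  rw [value_eq, value_eq]
  refine sig_complex ?_ ((herm_of_adj h.2.1).ev hρ) ?_ ha hg
  · rw [← map_mul, h.1, map_zero]
  · rw [← ev_adj hρ, ← map_mul, ← map_mul, ← map_add, h.2.2.1, map_zero]

theorem aug_adj (A : Matrix (Fin n) (Fin n) (MonoidAlgebra ℂ G)) : aug (adj A) = (aug A)ᴴ := by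
  ext i j
  rw [conjTranspose_apply]
  exact lift_one_star _ _ fun g => adj_coeff A i j g

theorem IsPoincare.sig_aug {b S : Matrix (Fin n) (Fin n) (MonoidAlgebra ℂ G)}
    (h : IsPoincare b S) : sig (aug (b + adj b + S)) = augSignature b S := by
  obtain ⟨a, ha, hgap⟩ := h.gap
  have hg := hgap.aug
  rw [map_add, map_add, aug_adj] at hg ⊢
  unfold augSignature
  rw [augm_eq, augm_eq]
  refine sig_complex ?_ (herm_of_adj h.2.1).aug ?_ ha hg
  · rw [← map_mul, h.1, map_zero]
  · rw [← aug_adj, ← map_mul, ← map_mul, ← map_add, h.2.2.1, map_zero]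

theorem poincare_tensor {b S : Matrix (Fin n) (Fin n) (MonoidAlgebra ℂ G)}
    (h : IsPoincare b S) {d e : ℕ} (ρ : G →* unitaryGroup (Fin d) ℂ)
    (σ : G →* unitaryGroup (Fin e) ℂ)
    (hρ : ∀ F : Finset G, ∃ H : Subgroup G, H.FG ∧ (∀ s ∈ F, s ∈ H) ∧
      ∀ x : H, ρ x ≠ 1 → Seen x) :
    cohSignature (fun g => (kroneckerMap (· * ·) (ρ g).val (σ g).val : Matrix _ _ ℂ)) b S =
      d * cohSignature (fun g => (σ g).val) b S := by
  have h1 := loc_tensor ρ σ (h.loc _ hρ)
  rw [h.sig_ev _ ((um_isU ρ).tens (um_isU σ)), h.sig_ev _ (um_isU σ)] at h1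
  exact h1

theorem poincare_aug {b S : Matrix (Fin n) (Fin n) (MonoidAlgebra ℂ G)}
    (h : IsPoincare b S) (hG : ∀ H : Subgroup G, H.FG → ∀ x : H, x ≠ 1 → Seen x) :
    (∀ (d : ℕ) (ρ : G →* unitaryGroup (Fin d) ℂ),
      cohSignature (fun g => (ρ g).val) b S = d * augSignature b S) ∧
    ∀ P : ℕ → ℝ[X],
      (∀ a b ε : ℝ, 0 < a → 0 < ε → ∀ᶠ k in atTop, ∀ x : ℝ, a ≤ |x| → |x| ≤ b →
        |(P k).eval x - ((SignType.sign x : SignType) : ℝ)| ≤ ε) →
      Tendsto (fun k => ∑ i, (aeval (b + adj b + S) (P k) i i).coeff 1) atTop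
        (nhds ((augSignature b S : ℤ) : ℂ)) := by
  have h1 := loc_aug (h.loc (fun H => ∀ x : H, x ≠ 1 → Seen x)
    (fun F => ⟨Subgroup.closure (F : Set G), ⟨F, rfl⟩, fun s hs => Subgroup.subset_closure hs,
      hG _ ⟨F, rfl⟩⟩))
  rw [h.sig_aug] at h1
  refine ⟨fun d ρ => ?_, h1.2⟩
  have h2 := h1.1 d ρ
  rw [h.sig_ev _ (um_isU ρ)] at h2
  exact h2

end Pool.Agent.H748.Art
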