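import Pool.Agent.H748.Art.Lin

/-!
# The signature of a Hermitian form on the cohomology of a finite dimensional complex
-/

set_option autoImplicit false
set_option linter.unusedSectionVars false

namespace Pool.Agent.H748.Art

open Matrix Pool.Agent.H748.Sig

section
variable {X : Type*} [Fintype X] [DecidableEq X]

/-- the largest dimension of a subspace of `W` on which the Hermitian form
`x ↦ ⟨x, M x⟩` is positive definite -/
noncomputable def posIndex (W : Submodule ℂ (X → ℂ)) (M : Matrix X X ℂ) : ℕ :=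
  sSup {k | ∃ U : Submodule ℂ (X → ℂ), U ≤ W ∧ Module.finrank ℂ U = k ∧
    ∀ x ∈ U, x ≠ 0 → 0 < (star x ⬝ᵥ M *ᵥ x).re}

/-- the signature of the Hermitian form `x ↦ ⟨x, M x⟩` on the subspace `W` -/
noncomputable def formSignature (W : Submodule ℂ (X → ℂ)) (M : Matrix X X ℂ) : ℤ :=
  (posIndex W M : ℤ) - (posIndex W (-M) : ℤ)

theorem form_congr (W : Submodule ℂ (X → ℂ)) (M N : Matrix X X ℂ)
    (h : ∀ x ∈ W, star x ⬝ᵥ M *ᵥ x = star x ⬝ᵥ N *ᵥ x) :
    formSignature W M = formSignature W N := by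
  have h1 : posIndex W M = posIndex W N := by
    unfold posIndex
    congr 1
    ext k
    constructor
    · rintro ⟨U, hU, hk, hp⟩
      exact ⟨U, hU, hk, fun x hx hx0 => by rw [← h x (hU hx)]; exact hp x hx hx0⟩
    · rintro ⟨U, hU, hk, hp⟩
      exact ⟨U, hU, hk, fun x hx hx0 => by rw [h x (hU hx)]; exact hp x hx hx0⟩
  have h2 : posIndex W (-M) = posIndex W (-N) := by
    unfold posIndex
    congr 1
    ext k
    constructor
    · rintro ⟨U, hU, hk, hp⟩
      exact ⟨U, hU, hk, fun x hx hx0 => by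
        rw [neg_mulVec, dotProduct_neg, ← h x (hU hx), ← dotProduct_neg, ← neg_mulVec]
        exact hp x hx hx0⟩
    · rintro ⟨U, hU, hk, hp⟩
      exact ⟨U, hU, hk, fun x hx hx0 => by
        rw [neg_mulVec, dotProduct_neg, h x (hU hx), ← dotProduct_neg, ← neg_mulVec]
        exact hp x hx hx0⟩
  rw [formSignature, formSignature, h1, h2]

theorem form_star {A : Matrix X X ℂ} (hA : A.IsHermitian) (x y : X → ℂ) :
    star x ⬝ᵥ A *ᵥ y = star (star y ⬝ᵥ A *ᵥ x) := by
  rw [star_dotProduct, star_mulVec, hA.eq, ← dotProduct_mulVec]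

theorem posIndex_eq {K I Vp Vn : Submodule ℂ (X → ℂ)} {A : Matrix X X ℂ}
    (hA : A.IsHermitian) (hIK : I ≤ K) (hperp : ∀ x ∈ I, ∀ y ∈ K, star x ⬝ᵥ A *ᵥ y = 0)
    (hdim : Module.finrank ℂ I + Module.finrank ℂ K = Fintype.card X)
    (hp : ∀ x ∈ Vp, x ≠ 0 → 0 < (star x ⬝ᵥ A *ᵥ x).re)
    (hn : ∀ x ∈ Vn, x ≠ 0 → (star x ⬝ᵥ A *ᵥ x).re < 0)
    (hV : Module.finrank ℂ Vp + Module.finrank ℂ Vn = Fintype.card X) :
    posIndex K A + Module.finrank ℂ I = Module.finrank ℂ Vp := by
  have hX : Module.finrank ℂ (X → ℂ) = Fintype.card X := Module.finrank_fintype_fun_eq_card ℂ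
  -- the upper bound
  have hub : ∀ k ∈ {k | ∃ U : Submodule ℂ (X → ℂ), U ≤ K ∧ Module.finrank ℂ U = k ∧
      ∀ x ∈ U, x ≠ 0 → 0 < (star x ⬝ᵥ A *ᵥ x).re}, k + Module.finrank ℂ I ≤
        Module.finrank ℂ Vp := by
    rintro k ⟨U, hUK, rfl, hU⟩
    have h1 : U ⊓ I = ⊥ := by
      rw [Submodule.eq_bot_iff]
      intro x hx
      by_contra hx0
      have h2 := hU x hx.1 hx0
      rw [hperp x hx.2 x (hIK hx.2)] at h2
      simp at h2
    have h2 : (U ⊔ I) ⊓ Vn = ⊥ := by
      rw [Submodule.eq_bot_iff]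
      intro x hx
      by_contra hx0
      have h3 := hn x hx.2 hx0
      obtain ⟨u, hu, i, hi, rfl⟩ := Submodule.mem_sup.1 hx.1
      have h4 : star (u + i) ⬝ᵥ A *ᵥ (u + i) = star u ⬝ᵥ A *ᵥ u := by
        rw [star_add, mulVec_add, add_dotProduct, dotProduct_add, dotProduct_add,
          form_star hA u i, hperp i hi u (hUK hu), hperp i hi i (hIK hi)]
        simp
      rw [h4] at h3
      by_cases hu0 : u = 0
      · rw [hu0] at h3
        simp at h3
      · exact absurd (hU u hu hu0) (not_lt.2 h3.le)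
    have h3 := Submodule.finrank_sup_add_finrank_inf_eq U I
    have h4 := Submodule.finrank_sup_add_finrank_inf_eq (U ⊔ I) Vn
    rw [h1, finrank_bot, add_zero] at h3
    rw [h2, finrank_bot, add_zero] at h4
    have h5 : Module.finrank ℂ ((U ⊔ I) ⊔ Vn : Submodule ℂ (X → ℂ)) ≤ Fintype.card X := by
      rw [← hX]
      exact Submodule.finrank_le _
    omega
  -- the lower bound
  have hle : Module.finrank ℂ I ≤ Module.finrank ℂ Vp := by
    have := hub 0 ⟨⊥, bot_le, finrank_bot ℂ _, fun x hx hx0 => absurd ((Submodule.mem_bot ℂ).1 hx) hx0⟩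
    omega
  have hmem : ∃ k ∈ {k | ∃ U : Submodule ℂ (X → ℂ), U ≤ K ∧ Module.finrank ℂ U = k ∧
      ∀ x ∈ U, x ≠ 0 → 0 < (star x ⬝ᵥ A *ᵥ x).re}, Module.finrank ℂ Vp ≤
        k + Module.finrank ℂ I := by
    refine ⟨Module.finrank ℂ (Vp ⊓ K : Submodule ℂ (X → ℂ)), ⟨Vp ⊓ K, inf_le_right, rfl,
      fun x hx hx0 => hp x hx.1 hx0⟩, ?_⟩
    have h3 := Submodule.finrank_sup_add_finrank_inf_eq Vp K
    have h5 : Module.finrank ℂ (Vp ⊔ K : Submodule ℂ (X → ℂ)) ≤ Fintype.card X := by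
      rw [← hX]
      exact Submodule.finrank_le _
    omega
  obtain ⟨k, hk, hk2⟩ := hmem
  have h6 : posIndex K A = k := by
    apply le_antisymm
    · refine csSup_le ⟨k, hk⟩ fun j hj => ?_
      have := hub j hj
      omega
    · refine le_csSup ⟨Module.finrank ℂ Vp, fun j hj => ?_⟩ hk
      have := hub j hj
      omega
  have h7 := hub k hk
  omega

/-- decomposition into a positive and a negative subspace -/
theorem exists_split {A : Matrix X X ℂ} (hA : A.IsHermitian)
    (h0 : ∀ i, hA.eigenvalues i ≠ 0) :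
    ∃ Vp Vn : Submodule ℂ (X → ℂ), (∀ x ∈ Vp, x ≠ 0 → 0 < (star x ⬝ᵥ A *ᵥ x).re) ∧
      (∀ x ∈ Vn, x ≠ 0 → (star x ⬝ᵥ A *ᵥ x).re < 0) ∧
      Module.finrank ℂ Vp + Module.finrank ℂ Vn = Fintype.card X ∧
      sig A = (Module.finrank ℂ Vp : ℤ) - Module.finrank ℂ Vn := by
  classical
  have hX : Module.finrank ℂ (X → ℂ) = Fintype.card X := Module.finrank_fintype_fun_eq_card ℂ
  set U : Matrix X X ℂ := (hA.eigenvectorUnitary : Matrix X X ℂ) with hU
  have hUU : U * Uᴴ = 1 := Unitary.mul_star_self_of_mem hA.eigenvectorUnitary.2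
  have hUU' : Uᴴ * U = 1 := Unitary.star_mul_self_of_mem hA.eigenvectorUnitary.2
  set D : Matrix X X ℂ := diagonal (fun i => (hA.eigenvalues i : ℂ)) with hD
  have hAD : A = U * D * Uᴴ := by
    have h1 := hA.spectral_theorem
    rw [Unitary.conjStarAlgAut_apply] at h1
    exact h1
  have hform : ∀ x : X → ℂ, (star x ⬝ᵥ A *ᵥ x).re =
      ∑ i, hA.eigenvalues i * ‖(Uᴴ *ᵥ x) i‖ ^ 2 := by
    intro x
    have h1 : star x ⬝ᵥ A *ᵥ x = star (Uᴴ *ᵥ x) ⬝ᵥ D *ᵥ (Uᴴ *ᵥ x) := by
      rw [star_mulVec, conjTranspose_conjTranspose, dotProduct_mulVec, dotProduct_mulVec,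
        dotProduct_mulVec, vecMul_vecMul, vecMul_vecMul]
      conv_lhs => rw [hAD, Matrix.mul_assoc]
    rw [h1, hD, dotProduct, Complex.re_sum]
    refine Finset.sum_congr rfl fun i _ => ?_
    rw [mulVec_diagonal, Pi.star_apply]
    set z := (Uᴴ *ᵥ x) i
    have h2 : star z * ((hA.eigenvalues i : ℂ) * z) =
        ((hA.eigenvalues i * ‖z‖ ^ 2 : ℝ) : ℂ) := by
      have h3 : star z * z = ((‖z‖ ^ 2 : ℝ) : ℂ) := by
        rw [Complex.star_def, mul_comm, Complex.mul_conj, Complex.normSq_eq_norm_sq]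
      calc star z * ((hA.eigenvalues i : ℂ) * z) = (hA.eigenvalues i : ℂ) * (star z * z) := by ring
        _ = _ := by rw [h3]; push_cast; ring
    rw [h2, Complex.ofReal_re]
  have hinj : ∀ x : X → ℂ, Uᴴ *ᵥ x = 0 → x = 0 := by
    intro x hx
    have h1 : U *ᵥ (Uᴴ *ᵥ x) = x := by rw [mulVec_mulVec, hUU, one_mulVec]
    rw [← h1, hx, mulVec_zero]
  -- coordinate subspaces
  have hsub : ∀ P : Finset X, ∃ V : Submodule ℂ (X → ℂ),
      (∀ x ∈ V, ∀ i ∉ P, (Uᴴ *ᵥ x) i = 0) ∧ P.card ≤ Module.finrank ℂ V := by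
    intro P
    let f : (X → ℂ) →ₗ[ℂ] ({i // i ∉ P} → ℂ) :=
      (LinearMap.funLeft ℂ ℂ (Subtype.val : {i // i ∉ P} → X)).comp (Matrix.mulVecLin Uᴴ)
    refine ⟨LinearMap.ker f, ?_, ?_⟩
    · intro x hx i hi
      exact congrFun (LinearMap.mem_ker.1 hx) ⟨i, hi⟩
    · have h1 := LinearMap.finrank_range_add_finrank_ker f
      have h2 : Module.finrank ℂ (LinearMap.range f) ≤ Fintype.card {i // i ∉ P} := by
        have := Submodule.finrank_le (LinearMap.range f)
        rwa [Module.finrank_fintype_fun_eq_card] at this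
      have h3 : Fintype.card {i // i ∉ P} = Fintype.card X - P.card := by
        rw [Fintype.card_subtype_compl]
        simp
      have h4 : P.card ≤ Fintype.card X := Finset.card_le_univ P
      rw [hX] at h1
      omega
  obtain ⟨Vp, hVp, hVp'⟩ := hsub (Finset.univ.filter fun i => 0 < hA.eigenvalues i)
  obtain ⟨Vn, hVn, hVn'⟩ := hsub (Finset.univ.filter fun i => hA.eigenvalues i < 0)
  have hpos : ∀ x ∈ Vp, x ≠ 0 → 0 < (star x ⬝ᵥ A *ᵥ x).re := by
    intro x hx hx0
    rw [hform]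
    have h1 : ∃ i, (Uᴴ *ᵥ x) i ≠ 0 := by
      by_contra hc
      push Not at hc
      exact hx0 (hinj x (funext hc))
    obtain ⟨i, hi⟩ := h1
    have h2 : 0 < hA.eigenvalues i := by
      by_contra hc
      exact hi (hVp x hx i (by simpa using hc))
    refine Finset.sum_pos' (fun j _ => ?_) ⟨i, Finset.mem_univ i, by positivity⟩
    by_cases hj : 0 < hA.eigenvalues j
    · positivity
    · rw [hVp x hx j (by simpa using hj)]
      simp
  have hneg : ∀ x ∈ Vn, x ≠ 0 → (star x ⬝ᵥ A *ᵥ x).re < 0 := by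
    intro x hx hx0
    rw [hform, ← neg_pos, ← Finset.sum_neg_distrib]
    have h1 : ∃ i, (Uᴴ *ᵥ x) i ≠ 0 := by
      by_contra hc
      push Not at hc
      exact hx0 (hinj x (funext hc))
    obtain ⟨i, hi⟩ := h1
    have h2 : hA.eigenvalues i < 0 := by
      by_contra hc
      exact hi (hVn x hx i (by simpa using hc))
    refine Finset.sum_pos' (fun j _ => ?_) ⟨i, Finset.mem_univ i, ?_⟩
    · by_cases hj : hA.eigenvalues j < 0
      · have : 0 ≤ (-hA.eigenvalues j) * ‖(Uᴴ *ᵥ x) j‖ ^ 2 := by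
          apply mul_nonneg (by linarith) (by positivity)
        linarith
      · rw [hVn x hx j (by simpa using hj)]
        simp
    · have : 0 < (-hA.eigenvalues i) * ‖(Uᴴ *ᵥ x) i‖ ^ 2 := by
        apply mul_pos (by linarith) (by positivity)
      linarith
  have hinf : Vp ⊓ Vn = ⊥ := by
    rw [Submodule.eq_bot_iff]
    intro x hx
    by_contra hx0
    have h1 := hpos x hx.1 hx0
    have h2 := hneg x hx.2 hx0
    linarith
  have h1 := Submodule.finrank_sup_add_finrank_inf_eq Vp Vn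
  rw [hinf, finrank_bot, add_zero] at h1
  have h2 : Module.finrank ℂ (Vp ⊔ Vn : Submodule ℂ (X → ℂ)) ≤ Fintype.card X := by
    rw [← hX]
    exact Submodule.finrank_le _
  have h3 : (Finset.univ.filter fun i => 0 < hA.eigenvalues i).card +
      (Finset.univ.filter fun i => hA.eigenvalues i < 0).card = Fintype.card X := by
    rw [← Finset.card_union_of_disjoint, ← Finset.card_univ]
    · congr 1
      ext i
      simp only [Finset.mem_union, Finset.mem_filter, Finset.mem_univ, true_and, iff_true]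
      rcases lt_trichotomy (hA.eigenvalues i) 0 with h | h | h
      · exact Or.inr h
      · exact absurd h (h0 i)
      · exact Or.inl h
    · rw [Finset.disjoint_filter]
      intro i _ hi
      exact not_lt.2 hi.le
  refine ⟨Vp, Vn, hpos, hneg, by omega, ?_⟩
  rw [← signature_eq, signature, dif_pos hA]
  have h4 : Module.finrank ℂ Vp = (Finset.univ.filter fun i => 0 < hA.eigenvalues i).card := by
    omega
  have h5 : Module.finrank ℂ Vn = (Finset.univ.filter fun i => hA.eigenvalues i < 0).card := by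
    omega
  rw [h4, h5]

/-- **The signature on cohomology.** -/
theorem sig_complex {b S : Matrix X X ℂ} (hb : b * b = 0) (hS : S.IsHermitian)
    (hbS : b * S + S * bᴴ = 0) {a c : ℝ} (ha : 0 < a) (hg : Gap (b + bᴴ + S) a c) :
    sig (b + bᴴ + S) = formSignature (LinearMap.ker (Matrix.mulVecLin bᴴ)) S := by
  set A := b + bᴴ + S with hAdef
  have hA : A.IsHermitian := by
    show (b + bᴴ + S)ᴴ = b + bᴴ + S
    rw [conjTranspose_add, conjTranspose_add, conjTranspose_conjTranspose, hS.eq, add_comm bᴴ b]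
  have h0 : ∀ i, hA.eigenvalues i ≠ 0 := by
    intro i hc
    have h1 := (gap_eigenvalues hA hg i).1
    rw [hc, abs_zero] at h1
    linarith
  obtain ⟨Vp, Vn, hp, hn, hV, hsig⟩ := exists_split hA h0
  set K := LinearMap.ker (Matrix.mulVecLin bᴴ) with hK
  set I := LinearMap.range (Matrix.mulVecLin bᴴ) with hI
  have hbb : bᴴ * bᴴ = 0 := by rw [← conjTranspose_mul, hb, conjTranspose_zero]
  have hKmem : ∀ y ∈ K, bᴴ *ᵥ y = 0 := fun y hy => LinearMap.mem_ker.1 hy
  have hIK : I ≤ K := by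
    rintro _ ⟨z, rfl⟩
    show bᴴ *ᵥ (bᴴ *ᵥ z) = 0
    rw [mulVec_mulVec, hbb, zero_mulVec]
  have hbS' : b * S = -(S * bᴴ) := eq_neg_of_add_eq_zero_left hbS
  have hperp : ∀ x ∈ I, ∀ y ∈ K, star x ⬝ᵥ A *ᵥ y = 0 := by
    rintro _ ⟨z, rfl⟩ y hy
    show star (bᴴ *ᵥ z) ⬝ᵥ A *ᵥ y = 0
    rw [star_mulVec, conjTranspose_conjTranspose, ← dotProduct_mulVec, mulVec_mulVec, hAdef,
      mul_add, mul_add, hb, zero_add, hbS', ← sub_eq_add_neg, sub_mulVec, ← mulVec_mulVec,
      ← mulVec_mulVec, hKmem y hy, mulVec_zero, mulVec_zero, sub_zero, dotProduct_zero]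
  have hX : Module.finrank ℂ (X → ℂ) = Fintype.card X := Module.finrank_fintype_fun_eq_card ℂ
  have hdim : Module.finrank ℂ I + Module.finrank ℂ K = Fintype.card X := by
    rw [← hX]
    exact LinearMap.finrank_range_add_finrank_ker _
  have h1 := posIndex_eq hA hIK hperp hdim hp hn hV
  have h2 := posIndex_eq (A := -A) (K := K) (I := I) (Vp := Vn) (Vn := Vp) hA.neg hIK (by
    intro x hx y hy
    rw [neg_mulVec, dotProduct_neg, hperp x hx y hy, neg_zero]) hdim (by
    intro x hx hx0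
    rw [neg_mulVec, dotProduct_neg, Complex.neg_re]
    linarith [hn x hx hx0]) (by
    intro x hx hx0
    rw [neg_mulVec, dotProduct_neg, Complex.neg_re]
    linarith [hp x hx hx0]) (by omega)
  have h3 : formSignature K S = formSignature K A := by
    apply form_congr
    intro x hx
    rw [hAdef, add_mulVec, add_mulVec, hKmem x hx, add_zero, dotProduct_add]
    have h4 : star x ⬝ᵥ b *ᵥ x = 0 := by
      have h5 : star x ⬝ᵥ b *ᵥ x = star (bᴴ *ᵥ x) ⬝ᵥ x := by
        rw [star_mulVec, conjTranspose_conjTranspose, dotProduct_mulVec]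
      rw [h5, hKmem x hx, star_zero, zero_dotProduct]
    rw [h4, zero_add]
  rw [h3, formSignature, hsig]
  omega

end

end Pool.Agent.H748.Art
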