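import Pool.Agent.H748.Art.Mor

/-!
# Restriction of Hermitian matrices to subgroups of finite index, induced representations
-/

set_option autoImplicit false
set_option linter.unusedSectionVars false

namespace Pool.Agent.H748.Art

open Polynomial Matrix Filter Pool.Agent.H748.Sig

variable {G : Type*} [Group G]
variable {ι κ l X : Type} [Fintype ι] [DecidableEq ι] [Fintype κ] [DecidableEq κ] [Fintype l]
  [DecidableEq l] [Fintype X] [DecidableEq X]

/-- left transversals indexed by `X` -/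
def Tr (D : Subgroup G) (r : X → G) : Prop := ∀ g, ∃! x, (r x)⁻¹ * g ∈ D

theorem exists_tr (D : Subgroup G) [D.FiniteIndex] :
    ∃ (X : Type) (_ : Fintype X) (_ : DecidableEq X) (r : X → G), Tr D r ∧ Nonempty X := by
  classical
  have hfin : Finite (G ⧸ D) := inferInstance
  obtain ⟨n, ⟨e⟩⟩ := finite_iff_exists_equiv_fin.1 hfin
  refine ⟨Fin n, inferInstance, inferInstance, fun x => (e.symm x).out, ?_, ⟨e ((1 : G) : G ⧸ D)⟩⟩
  intro g
  refine ⟨e (g : G ⧸ D), ?_, ?_⟩
  · show ((e.symm (e (g : G ⧸ D))).out)⁻¹ * g ∈ D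
    rw [e.symm_apply_apply, ← QuotientGroup.eq, QuotientGroup.out_eq']
  · intro x hx
    have h1 : ((e.symm x).out)⁻¹ * g ∈ D := hx
    rw [← QuotientGroup.eq, QuotientGroup.out_eq'] at h1
    rw [← h1, e.apply_symm_apply]

open Classical in
/-- the element of the group algebra of `D` given by `g`, if `g ∈ D` -/
noncomputable def ie (D : Subgroup G) (g : G) : MonoidAlgebra ℂ D :=
  if h : g ∈ D then MonoidAlgebra.single ⟨g, h⟩ 1 else 0

theorem ie_of_mem {D : Subgroup G} {g : G} (h : g ∈ D) :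
    ie D g = MonoidAlgebra.single ⟨g, h⟩ 1 := dif_pos h

theorem ie_of_notMem {D : Subgroup G} {g : G} (h : g ∉ D) : ie D g = 0 := dif_neg h

theorem ie_mul {D : Subgroup G} {g h : G} (hh : h ∈ D) : ie D g * ie D h = ie D (g * h) := by
  by_cases hg : g ∈ D
  · rw [ie_of_mem hg, ie_of_mem hh, ie_of_mem (D.mul_mem hg hh), MonoidAlgebra.single_mul_single,
      one_mul]
    rfl
  · rw [ie_of_notMem hg, zero_mul, ie_of_notMem]
    intro hc
    apply hg
    have := D.mul_mem hc (D.inv_mem hh)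
    rwa [mul_inv_cancel_right] at this

/-- induction of the regular bimodule -/
noncomputable def indMat (D : Subgroup G) (r : X → G) (hr : Tr D r) :
    G →* Matrix X X (MonoidAlgebra ℂ D) where
  toFun g := Matrix.of fun x y => ie D ((r x)⁻¹ * g * r y)
  map_one' := by
    ext x y : 1
    rw [Matrix.of_apply, Matrix.one_apply, mul_one]
    split_ifs with h
    · subst h
      rw [inv_mul_cancel, ie_of_mem D.one_mem]
      rfl
    · rw [ie_of_notMem]
      intro hc
      apply h
      obtain ⟨z, -, hz⟩ := hr (r y)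
      rw [hz x hc, hz y (show (r y)⁻¹ * r y ∈ D by rw [inv_mul_cancel]; exact D.one_mem)]
  map_mul' g h := by
    ext x y : 1
    rw [Matrix.of_apply, Matrix.mul_apply]
    obtain ⟨z, hz, hz'⟩ := hr (h * r y)
    rw [Finset.sum_eq_single z]
    · rw [Matrix.of_apply, Matrix.of_apply, ie_mul]
      · congr 1
        group
      · rw [mul_assoc]
        exact hz
    · intro w _ hw
      rw [Matrix.of_apply, Matrix.of_apply, ie_of_notMem (g := (r w)⁻¹ * h * r y), mul_zero]
      intro hc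
      exact hw (hz' w (show (r w)⁻¹ * (h * r y) ∈ D by rw [← mul_assoc]; exact hc))
    · intro hc
      exact absurd (Finset.mem_univ z) hc

theorem indMat_apply (D : Subgroup G) (r : X → G) (hr : Tr D r) (g : G) (x y : X) :
    indMat D r hr g x y = ie D ((r x)⁻¹ * g * r y) := rfl

/-- restriction of matrices over the group algebra to a subgroup of finite index -/
noncomputable def resM (D : Subgroup G) (r : X → G) (hr : Tr D r) :
    Matrix ι ι (MonoidAlgebra ℂ G) →ₐ[ℂ] Matrix (ι × X) (ι × X) (MonoidAlgebra ℂ D) :=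
  (Matrix.compAlgEquiv ι X (MonoidAlgebra ℂ D) ℂ).toAlgHom.comp
    (MonoidAlgebra.lift ℂ (Matrix X X (MonoidAlgebra ℂ D)) G (indMat D r hr)).mapMatrix

theorem resM_apply (D : Subgroup G) (r : X → G) (hr : Tr D r)
    (A : Matrix ι ι (MonoidAlgebra ℂ G)) (p q : ι × X) :
    resM D r hr A p q =
      MonoidAlgebra.lift ℂ (Matrix X X (MonoidAlgebra ℂ D)) G (indMat D r hr) (A p.1 q.1)
        p.2 q.2 := rfl

theorem lift_ind_coeff (D : Subgroup G) (r : X → G) (hr : Tr D r) (a : MonoidAlgebra ℂ G)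
    (x y : X) (d : D) :
    (MonoidAlgebra.lift ℂ (Matrix X X (MonoidAlgebra ℂ D)) G (indMat D r hr) a x y).coeff d =
      a.coeff (r x * d * (r y)⁻¹) := by
  classical
  induction a using MonoidAlgebra.induction_linear with
  | zero => simp
  | add a b hx hy =>
    rw [map_add, Matrix.add_apply, MonoidAlgebra.coeff_add, Finsupp.add_apply, hx, hy,
      MonoidAlgebra.coeff_add, Finsupp.add_apply]
  | single g c =>
    rw [MonoidAlgebra.lift_single, Matrix.smul_apply, indMat_apply, MonoidAlgebra.coeff_single,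
      Finsupp.single_apply]
    by_cases h : (r x)⁻¹ * g * r y ∈ D
    · rw [ie_of_mem h, MonoidAlgebra.smul_single, MonoidAlgebra.coeff_single,
        Finsupp.single_apply, smul_eq_mul, mul_one]
      congr 1
      apply propext
      rw [Subtype.ext_iff]
      constructor
      · intro h1
        rw [← h1]
        group
      · intro h1
        show (r x)⁻¹ * g * r y = d
        rw [h1]
        group
    · rw [ie_of_notMem h, if_neg]
      · simp
      · intro h1
        apply h
        rw [h1]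
        have : (r x)⁻¹ * (r x * (d : G) * (r y)⁻¹) * r y = d := by group
        rw [this]
        exact d.2

theorem resM_coeff (D : Subgroup G) (r : X → G) (hr : Tr D r)
    (A : Matrix ι ι (MonoidAlgebra ℂ G)) (p q : ι × X) (d : D) :
    (resM D r hr A p q).coeff d = (A p.1 q.1).coeff (r p.2 * d * (r q.2)⁻¹) :=
  lift_ind_coeff D r hr _ _ _ d

theorem herm_resM (D : Subgroup G) (r : X → G) (hr : Tr D r)
    {A : Matrix ι ι (MonoidAlgebra ℂ G)} (hA : Herm A) : Herm (resM D r hr A) := by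
  intro p q d
  rw [resM_coeff, resM_coeff, hA p.1 q.1]
  congr 2
  rw [Subgroup.coe_inv]
  group

/-- induced representations -/
noncomputable def indRep (D : Subgroup G) (r : X → G) (hr : Tr D r) (σ : D →* Matrix κ κ ℂ) :
    G →* Matrix (X × κ) (X × κ) ℂ :=
  (ev σ : Matrix X X (MonoidAlgebra ℂ D) →ₐ[ℂ] Matrix (X × κ) (X × κ) ℂ).toRingHom.toMonoidHom.comp
    (indMat D r hr)

theorem lift_ie (D : Subgroup G) (σ : D →* Matrix κ κ ℂ) (g : G) (h : g ∈ D) :
    MonoidAlgebra.lift ℂ (Matrix κ κ ℂ) D σ (ie D g) = σ ⟨g, h⟩ := by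
  rw [ie_of_mem h, MonoidAlgebra.lift_single, one_smul]

theorem indRep_of_mem (D : Subgroup G) (r : X → G) (hr : Tr D r) (σ : D →* Matrix κ κ ℂ) (g : G)
    (p q : X × κ) (h : (r p.1)⁻¹ * g * r q.1 ∈ D) :
    indRep D r hr σ g p q = σ ⟨_, h⟩ p.2 q.2 := by
  show MonoidAlgebra.lift ℂ (Matrix κ κ ℂ) D σ (ie D _) p.2 q.2 = _
  rw [lift_ie D σ _ h]

theorem indRep_of_notMem (D : Subgroup G) (r : X → G) (hr : Tr D r) (σ : D →* Matrix κ κ ℂ)
    (g : G) (p q : X × κ) (h : (r p.1)⁻¹ * g * r q.1 ∉ D) :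
    indRep D r hr σ g p q = 0 := by
  show MonoidAlgebra.lift ℂ (Matrix κ κ ℂ) D σ (ie D _) p.2 q.2 = _
  rw [ie_of_notMem h, map_zero]
  rfl

theorem isU_indRep (D : Subgroup G) (r : X → G) (hr : Tr D r) {σ : D →* Matrix κ κ ℂ}
    (hσ : IsU σ) : IsU (indRep D r hr σ) := by
  intro g
  ext p q
  rw [conjTranspose_apply]
  by_cases h : (r q.1)⁻¹ * g * r p.1 ∈ D
  · have h' : (r p.1)⁻¹ * g⁻¹ * r q.1 ∈ D := by
      have := D.inv_mem h
      have h2 : ((r q.1)⁻¹ * g * r p.1)⁻¹ = (r p.1)⁻¹ * g⁻¹ * r q.1 := by group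
      rwa [h2] at this
    rw [indRep_of_mem D r hr σ g q p h, indRep_of_mem D r hr σ g⁻¹ p q h']
    have h1 := congrFun (congrFun (hσ ⟨_, h⟩) p.2) q.2
    rw [conjTranspose_apply] at h1
    rw [h1]
    have h3 : (⟨(r q.1)⁻¹ * g * r p.1, h⟩ : D)⁻¹ = ⟨(r p.1)⁻¹ * g⁻¹ * r q.1, h'⟩ := by
      apply Subtype.ext
      show ((r q.1)⁻¹ * g * r p.1)⁻¹ = _
      group
    rw [h3]
  · have h' : (r p.1)⁻¹ * g⁻¹ * r q.1 ∉ D := by
      intro hc
      apply h
      have := D.inv_mem hc
      have h2 : ((r p.1)⁻¹ * g⁻¹ * r q.1)⁻¹ = (r q.1)⁻¹ * g * r p.1 := by group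
      rwa [h2] at this
    rw [indRep_of_notMem D r hr σ g q p h, indRep_of_notMem D r hr σ g⁻¹ p q h', star_zero]

theorem lift_lift_ind (D : Subgroup G) (r : X → G) (hr : Tr D r) (σ : D →* Matrix κ κ ℂ)
    (a : MonoidAlgebra ℂ G) (x y : X) (k k' : κ) :
    MonoidAlgebra.lift ℂ (Matrix κ κ ℂ) D σ
      (MonoidAlgebra.lift ℂ (Matrix X X (MonoidAlgebra ℂ D)) G (indMat D r hr) a x y) k k' =
      MonoidAlgebra.lift ℂ (Matrix (X × κ) (X × κ) ℂ) G (indRep D r hr σ) a (x, k) (y, k') := by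
  induction a using MonoidAlgebra.induction_linear with
  | zero => simp
  | add a b hx hy => simp only [map_add, Matrix.add_apply, hx, hy]
  | single h c =>
    rw [MonoidAlgebra.lift_single, MonoidAlgebra.lift_single, Matrix.smul_apply, map_smul,
      Matrix.smul_apply, Matrix.smul_apply]
    rfl

theorem ev_resM (D : Subgroup G) (r : X → G) (hr : Tr D r) (σ : D →* Matrix κ κ ℂ)
    (A : Matrix ι ι (MonoidAlgebra ℂ G)) (p q : (ι × X) × κ) :
    ev σ (resM D r hr A) p q =
      ev (indRep D r hr σ) A (p.1.1, (p.1.2, p.2)) (q.1.1, (q.1.2, q.2)) :=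
  lift_lift_ind D r hr σ (A p.1.1 q.1.1) p.1.2 q.1.2 p.2 q.2

theorem gapA_resM (D : Subgroup G) (r : X → G) (hr : Tr D r)
    {A : Matrix ι ι (MonoidAlgebra ℂ G)} {a b : ℝ} (hA : GapA A a b) :
    GapA (resM D r hr A) a b := by
  intro κ _ _ σ hσ
  exact (hA (X × κ) (indRep D r hr σ) (isU_indRep D r hr hσ)).congr (Equiv.prodAssoc ι X κ)
    (fun p q => ev_resM D r hr σ A p q)

/-- signatures of induced representations -/
theorem sig_ind (D : Subgroup G) (r : X → G) (hr : Tr D r)
    {A : Matrix ι ι (MonoidAlgebra ℂ G)} {a b : ℝ} (ha : 0 < a) (hA : Herm A) (hg : GapA A a b)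
    {σ : D →* Matrix κ κ ℂ} (hσ : IsU σ) :
    sig (ev (indRep D r hr σ) A) = sig (ev σ (resM D r hr A)) := by
  have h1 := sig_two ha (hA.ev (isU_indRep D r hr hσ)) ((herm_resM D r hr hA).ev hσ)
    (hg _ _ (isU_indRep D r hr hσ)) (gapA_resM D r hr hg κ σ hσ) 1 1 (by
    intro P
    rw [Int.cast_one, one_mul, one_mul, aeval_ev, aeval_ev]
    have h2 : aeval (resM D r hr A) P = resM D r hr (aeval A P) :=
      aeval_algHom_apply ((resM D r hr).restrictScalars ℝ) A P
    rw [h2]
    unfold Matrix.trace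
    rw [← Equiv.sum_comp (Equiv.prodAssoc ι X κ)]
    refine Finset.sum_congr rfl fun p _ => ?_
    exact (ev_resM D r hr σ (aeval A P) p p).symm)
  simpa using h1

open Classical in
/-- the permutation character -/
noncomputable def fix (D : Subgroup G) (r : X → G) (g : G) : ℂ :=
  ∑ x : X, if (r x)⁻¹ * g * r x ∈ D then 1 else 0

theorem trace_conj (ρ : G →* Matrix κ κ ℂ) (g h : G) : (ρ (h⁻¹ * g * h)).trace = (ρ g).trace := by
  rw [map_mul, trace_mul_comm, ← map_mul, ← mul_assoc, mul_inv_cancel, one_mul]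

theorem trace_indRep (D : Subgroup G) (r : X → G) (hr : Tr D r) (ρ : G →* Matrix κ κ ℂ) (g : G) :
    (indRep D r hr (ρ.comp D.subtype) g).trace = fix D r g * (ρ g).trace := by
  classical
  unfold Matrix.trace fix
  rw [Fintype.sum_prod_type, Finset.sum_mul]
  refine Finset.sum_congr rfl fun x _ => ?_
  by_cases h : (r x)⁻¹ * g * r x ∈ D
  · rw [if_pos h, one_mul, ← Matrix.trace, ← trace_conj ρ g (r x)]
    refine Finset.sum_congr rfl fun k _ => ?_
    rw [diag_apply, indRep_of_mem D r hr _ g (x, k) (x, k) h]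
    rfl
  · rw [if_neg h, zero_mul]
    refine Finset.sum_eq_zero fun k _ => ?_
    rw [diag_apply, indRep_of_notMem D r hr _ g (x, k) (x, k) h]

theorem isU_sub {D : Subgroup G} {ρ : G →* Matrix κ κ ℂ} (hρ : IsU ρ) :
    IsU (ρ.comp D.subtype) := isU_comp hρ

/-- the signature of the restriction to a rigid subgroup of finite index -/
theorem sig_ind_rig (D : Subgroup G) (hD : Rig D) (r : X → G) (hr : Tr D r)
    {A : Matrix ι ι (MonoidAlgebra ℂ G)} {a b : ℝ} (ha : 0 < a) (hA : Herm A) (hg : GapA A a b)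
    {ρ : G →* Matrix κ κ ℂ} (hρ : IsU ρ) :
    sig (ev (indRep D r hr (ρ.comp D.subtype)) A) =
      Fintype.card κ * sig (aug (resM D r hr A)) := by
  rw [sig_ind D r hr ha hA hg (isU_sub hρ)]
  exact hD (ι × X) _ a b ha (herm_resM D r hr hA) (gapA_resM D r hr hg) κ _ (isU_sub hρ)

theorem T_sum_mul {I : Type*} (s : Finset I) (c : I → ℂ) (χ : I → G → ℂ)
    (x : MonoidAlgebra ℂ G) :
    ∑ i ∈ s, c i * T (χ i) x = T (fun g => ∑ i ∈ s, c i * χ i g) x := by
  simp only [T_apply, Finsupp.sum, Finset.mul_sum]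
  rw [Finset.sum_comm]
  refine Finset.sum_congr rfl fun g _ => Finset.sum_congr rfl fun i _ => ?_
  ring

/-- Artin induction: a group is rigid if the trivial character is a linear combination of
permutation characters of rigid subgroups of finite index. -/
theorem rig_of_artin {I : Type*} (s : Finset I) (c : I → ℝ) (D : I → Subgroup G)
    (X : I → Type) [∀ i, Fintype (X i)] [∀ i, DecidableEq (X i)] (r : ∀ i, X i → G)
    (hr : ∀ i, Tr (D i) (r i)) (hD : ∀ i, Rig (D i))
    (h : ∀ g : G, ∑ i ∈ s, (c i : ℂ) * fix (D i) (r i) g = 1) : Rig G := by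
  classical
  intro ι _ _ A a b ha hA hg κ _ _ ρ hρ
  have key : ∀ (l : Type) [Fintype l] [DecidableEq l] (σ : G →* Matrix l l ℂ), IsU σ →
      (sig (ev σ A) : ℝ) =
        Fintype.card l * ∑ i ∈ s, c i * (sig (aug (resM (D i) (r i) (hr i) A)) : ℝ) := by
    intro l _ _ σ hσ
    have h1 := sig_lin (ev σ A) s c (fun i => ι × (X i × l))
      (fun i => ev (indRep (D i) (r i) (hr i) (σ.comp (D i).subtype)) A) ha (hA.ev hσ)
      (hg l σ hσ) (fun i _ => hA.ev (isU_indRep _ _ _ (isU_sub hσ)))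
      (fun i _ => hg _ _ (isU_indRep _ _ _ (isU_sub hσ))) (by
        intro P
        simp only [aeval_ev, trace_ev, trace_indRep]
        rw [T_sum_mul]
        congr 2
        funext g
        simp only [← mul_assoc]
        rw [← Finset.sum_mul, h g, one_mul])
    rw [h1, Finset.mul_sum]
    refine Finset.sum_congr rfl fun i _ => ?_
    rw [sig_ind_rig (D i) (hD i) (r i) (hr i) ha hA hg hσ]
    push_cast
    ring
  have h1 := key κ ρ hρ
  have h2 := key Unit 1 isU_one
  rw [Fintype.card_unit, Nat.cast_one, one_mul] at h2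
  rw [← h2] at h1
  have h3 := sig_ev_const ha hA hg (ρ := (1 : G →* Matrix Unit Unit ℂ)) isU_one (by
    intro g
    rw [MonoidHom.one_apply, trace_one])
  rw [Fintype.card_unit, Nat.cast_one, one_mul] at h3
  rw [← h3]
  exact_mod_cast h1

end Pool.Agent.H748.Art
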