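import Pool.Agent.H748.Sig.Main

/-!
# Linearity and homotopy invariance of signatures
-/

set_option autoImplicit false
set_option linter.unusedSectionVars false

namespace Pool.Agent.H748.Art

open Polynomial Matrix Filter Pool.Agent.H748.Sig

/-- Linear relations between the traces of all polynomials give relations between signatures. -/
theorem sig_lin {I Y : Type*} [Fintype Y] [DecidableEq Y] (N : Matrix Y Y ℂ) (s : Finset I)
    (c : I → ℝ) (X : I → Type*) [∀ i, Fintype (X i)]
    [∀ i, DecidableEq (X i)] (M : ∀ i, Matrix (X i) (X i) ℂ) {a b : ℝ} (ha : 0 < a)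
    (hN : N.IsHermitian) (hgN : Gap N a b)
    (hM : ∀ i ∈ s, (M i).IsHermitian) (hg : ∀ i ∈ s, Gap (M i) a b)
    (h : ∀ P : ℝ[X], (aeval N P).trace = ∑ i ∈ s, (c i : ℂ) * (aeval (M i) P).trace) :
    (sig N : ℝ) = ∑ i ∈ s, c i * (sig (M i) : ℝ) := by
  by_contra hne
  have hne' : (sig N : ℝ) - ∑ i ∈ s, c i * (sig (M i) : ℝ) ≠ 0 := sub_ne_zero.2 hne
  set C : ℝ := Fintype.card Y + ∑ i ∈ s, |c i| * Fintype.card (X i) with hC
  have hC0 : 0 ≤ C := by
    have : 0 ≤ ∑ i ∈ s, |c i| * Fintype.card (X i) := Finset.sum_nonneg fun i _ => by positivity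
    positivity
  set v : ℝ := (sig N : ℝ) - ∑ i ∈ s, c i * (sig (M i) : ℝ) with hv
  have hv0 : 0 < |v| := abs_pos.2 hne'
  obtain ⟨P, ε, hε, hP⟩ := exists_appr (b := b) ha (|v| / (C + 1)) (by positivity)
  have h1 : ∀ i ∈ s, ‖(c i : ℂ) * ((aeval (M i) P).trace - (sig (M i) : ℂ))‖ ≤
      |c i| * Fintype.card (X i) * ε := by
    intro i hi
    rw [norm_mul, Complex.norm_real, Real.norm_eq_abs, mul_assoc]
    exact mul_le_mul_of_nonneg_left
      (trace_sig (hM i hi) ((hg i hi).mono (le_max_right a b)) hP) (abs_nonneg _)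
  have h0 := trace_sig hN (hgN.mono (le_max_right a b)) hP
  have h2 : ‖(v : ℂ)‖ ≤ C * ε := by
    have h3 : (v : ℂ) = ∑ i ∈ s, (c i : ℂ) * ((aeval (M i) P).trace - (sig (M i) : ℂ)) -
        ((aeval N P).trace - (sig N : ℂ)) := by
      rw [hv]
      simp only [mul_sub, Finset.sum_sub_distrib]
      rw [h P]
      push_cast
      ring
    rw [h3, hC, add_mul, Finset.sum_mul]
    have h4 := norm_sum_le s fun i => (c i : ℂ) * ((aeval (M i) P).trace - (sig (M i) : ℂ))
    have h5 := Finset.sum_le_sum h1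
    refine (norm_sub_le _ _).trans ?_
    linarith
  rw [Complex.norm_real, Real.norm_eq_abs] at h2
  have h4 : |v| ≤ C * (|v| / (C + 1)) := h2.trans (mul_le_mul_of_nonneg_left hε.le hC0)
  have h5 : C * (|v| / (C + 1)) < |v| := by
    rw [mul_div_assoc', div_lt_iff₀ (by linarith)]
    nlinarith
  linarith

/-- Matrices with the same traces of all polynomials have the same signature (after scaling). -/
theorem sig_two {X Y : Type*} [Fintype X] [DecidableEq X] [Fintype Y] [DecidableEq Y]
    {M : Matrix X X ℂ} {N : Matrix Y Y ℂ} {a b : ℝ} (ha : 0 < a) (hM : M.IsHermitian)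
    (hN : N.IsHermitian) (hgM : Gap M a b) (hgN : Gap N a b) (c d : ℤ)
    (h : ∀ P : ℝ[X], (c : ℂ) * (aeval M P).trace = (d : ℂ) * (aeval N P).trace) :
    c * sig M = d * sig N := by
  by_contra hne
  set C : ℝ := |(c : ℝ)| * Fintype.card X + |(d : ℝ)| * Fintype.card Y with hC
  have hC0 : 0 ≤ C := by positivity
  obtain ⟨P, ε, hε, hP⟩ := exists_appr (b := b) ha (1 / (C + 1)) (by positivity)
  have h1 : ‖(c : ℂ) * ((aeval M P).trace - (sig M : ℂ))‖ ≤ |(c : ℝ)| * Fintype.card X * ε := by
    rw [norm_mul, Complex.norm_intCast, mul_assoc]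
    exact mul_le_mul_of_nonneg_left
      (trace_sig hM (hgM.mono (le_max_right a b)) hP) (abs_nonneg _)
  have h2 : ‖(d : ℂ) * ((aeval N P).trace - (sig N : ℂ))‖ ≤ |(d : ℝ)| * Fintype.card Y * ε := by
    rw [norm_mul, Complex.norm_intCast, mul_assoc]
    exact mul_le_mul_of_nonneg_left
      (trace_sig hN (hgN.mono (le_max_right a b)) hP) (abs_nonneg _)
  have h3 : (((c * sig M - d * sig N : ℤ)) : ℂ) =
      (d : ℂ) * ((aeval N P).trace - (sig N : ℂ)) -
        (c : ℂ) * ((aeval M P).trace - (sig M : ℂ)) := by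
    rw [mul_sub, mul_sub, h P]
    push_cast
    ring
  have h4 : ‖(((c * sig M - d * sig N : ℤ)) : ℂ)‖ ≤ C * ε := by
    rw [h3, hC]
    refine (norm_sub_le _ _).trans ?_
    linarith
  rw [Complex.norm_intCast] at h4
  have h5 : C * ε < 1 := by
    rcases hC0.eq_or_lt with h0 | h0
    · rw [← h0, zero_mul]
      exact zero_lt_one
    · calc C * ε < C * (1 / (C + 1)) := mul_lt_mul_of_pos_left hε h0
        _ ≤ 1 := by
            rw [mul_one_div, div_le_one (by linarith)]
            linarith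
  have h6 : |c * sig M - d * sig N| < 1 := by
    have h7 := lt_of_le_of_lt h4 h5
    exact_mod_cast h7
  exact hne (sub_eq_zero.1 (Int.abs_lt_one_iff.1 h6))

/-- Homotopy invariance of the signature. -/
theorem sig_path {X : Type*} [Fintype X] [DecidableEq X] {M : ℝ → Matrix X X ℂ}
    (hc : Continuous M) {a b : ℝ} (ha : 0 < a) (hM : ∀ t, (M t).IsHermitian)
    (hg : ∀ t, Gap (M t) a b) (s t : ℝ) : sig (M s) = sig (M t) := by
  set C : ℝ := (Fintype.card X : ℝ) with hC
  have hC0 : 0 ≤ C := by positivity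
  obtain ⟨P, ε, hε, hP⟩ := exists_appr (b := b) ha (1 / (4 * C + 1)) (by positivity)
  have h0 : C * ε ≤ 1 / 4 := by
    have h1 : C * ε ≤ C * (1 / (4 * C + 1)) := mul_le_mul_of_nonneg_left hε.le hC0
    have h2 : C * (1 / (4 * C + 1)) ≤ 1 / 4 := by
      rw [mul_one_div, div_le_div_iff₀ (by positivity) (by norm_num)]
      linarith
    linarith
  have h1 : ∀ t, ‖(aeval (M t) P).trace - (sig (M t) : ℂ)‖ ≤ 1 / 4 := fun t =>
    (trace_sig (hM t) ((hg t).mono (le_max_right a b)) hP).trans h0
  have h2 : Continuous fun t => (aeval (M t) P).trace := by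
    have h3 : Continuous fun t => aeval (M t) P := by
      simp only [aeval_eq_sum_range]
      refine continuous_finsetSum _ fun i _ => ?_
      exact (hc.pow i).const_smul (P.coeff i)
    exact h3.matrix_trace
  have h3 : IsLocallyConstant fun t => sig (M t) := by
    rw [IsLocallyConstant.iff_eventually_eq]
    intro t₀
    have h4 := (Metric.continuous_iff'.1 h2) t₀ (1 / 4) (by norm_num)
    filter_upwards [h4] with t ht
    rw [dist_eq_norm] at ht
    have h5 : ‖((sig (M t) - sig (M t₀) : ℤ) : ℂ)‖ < 1 := by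
      have h6 : ((sig (M t) - sig (M t₀) : ℤ) : ℂ) =
          ((aeval (M t) P).trace - (aeval (M t₀) P).trace) -
            ((aeval (M t) P).trace - (sig (M t) : ℂ)) +
            ((aeval (M t₀) P).trace - (sig (M t₀) : ℂ)) := by
        push_cast
        ring
      rw [h6]
      refine lt_of_le_of_lt (norm_add_le _ _) ?_
      have h7 := norm_sub_le ((aeval (M t) P).trace - (aeval (M t₀) P).trace)
        ((aeval (M t) P).trace - (sig (M t) : ℂ))
      have h8 := h1 t
      have h9 := h1 t₀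
      linarith
    rw [Complex.norm_intCast] at h5
    have h6 : |sig (M t) - sig (M t₀)| < 1 := by exact_mod_cast h5
    exact sub_eq_zero.1 (Int.abs_lt_one_iff.1 h6)
  exact h3.apply_eq_of_preconnectedSpace s t

end Pool.Agent.H748.Art
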