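import Pool.Agent.H748.Art.Vab

/-!
# Groups with sufficiently many rigid quotients
-/

set_option autoImplicit false
set_option linter.unusedSectionVars false

namespace Pool.Agent.H748.Art

open Polynomial Matrix Filter Pool.Agent.H748.Sig

universe u

variable {G : Type u} [Group G]
variable {ι κ l X : Type} [Fintype ι] [DecidableEq ι] [Fintype κ] [DecidableEq κ] [Fintype l]
  [DecidableEq l] [Fintype X] [DecidableEq X]

theorem trace_tens (ρ : G →* Matrix κ κ ℂ) (σ : G →* Matrix l l ℂ) (g : G) :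
    (tens ρ σ g).trace = (ρ g).trace * (σ g).trace := Matrix.trace_kronecker _ _

theorem sig_tw {A : Matrix ι ι (MonoidAlgebra ℂ G)} {a b : ℝ} (ha : 0 < a) (hA : Herm A)
    (hg : GapA A a b) {ρ : G →* Matrix κ κ ℂ} {σ : G →* Matrix l l ℂ} (hρ : IsU ρ) (hσ : IsU σ) :
    sig (ev (tens ρ σ) A) = sig (ev σ (tw ρ A)) := by
  have h1 := sig_two ha (hA.ev (hρ.tens hσ)) ((hA.tw hρ).ev hσ) (hg _ _ (hρ.tens hσ))
    ((hg.tw hρ) l σ hσ) 1 1 (by
    intro P
    rw [Int.cast_one, one_mul, one_mul, aeval_ev, aeval_ev, trace_ev, trace_ev]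
    have h2 : aeval (tw ρ A) P = tw ρ (aeval A P) :=
      aeval_algHom_apply ((tw ρ).restrictScalars ℝ) A P
    rw [h2, ← TT_eq, ← TT_eq, TT_tw]
    congr 1
    funext g
    rw [trace_tens, mul_comm])
  simpa using h1

/-- tensoring with a representation of a rigid quotient -/
theorem rig_tens {Q : Type u} [Group Q] (hQ : Rig Q) (f : G →* Q)
    {A : Matrix ι ι (MonoidAlgebra ℂ G)} {a b : ℝ} (ha : 0 < a) (hA : Herm A)
    (hg : GapA A a b) {ρ : G →* Matrix κ κ ℂ} {σ : Q →* Matrix l l ℂ} (hρ : IsU ρ) (hσ : IsU σ) :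
    sig (ev (tens ρ (σ.comp f)) A) = Fintype.card l * sig (ev ρ A) := by
  rw [sig_tw ha hA hg hρ (isU_comp hσ), ← ev_pushM,
    hQ _ (pushM f (tw ρ A)) a b ha (herm_pushM f (hA.tw hρ)) (gapA_pushM f (hg.tw hρ)) l σ hσ,
    aug_pushM, aug_tw]

/-- `g` is detected by a finite quotient of a rigid quotient of `G` which kills `K` -/
def Det (K : Set G) (g : G) : Prop :=
  ∃ (Q : Type u) (_ : Group Q) (f : G →* Q) (L : Subgroup Q), L.Normal ∧ L.FiniteIndex ∧ Rig Q ∧
    f g ∉ L ∧ ∀ k ∈ K, f k = 1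

theorem exists_killer (K : Set G) (S : Finset G) (hS : ∀ s ∈ S, Det K s) :
    ∃ (l : Type) (_ : Fintype l) (_ : DecidableEq l) (τ : G →* Matrix l l ℂ), IsU τ ∧
      0 < Fintype.card l ∧ (∀ k ∈ K, τ k = 1) ∧ (∀ s ∈ S, (τ s).trace = 0) ∧
      ∀ (ι : Type) [Fintype ι] [DecidableEq ι] (A : Matrix ι ι (MonoidAlgebra ℂ G)) (a b : ℝ),
        0 < a → Herm A → GapA A a b → ∀ (κ : Type) [Fintype κ] [DecidableEq κ]
          (ρ : G →* Matrix κ κ ℂ), IsU ρ →
          sig (ev (tens ρ τ) A) = Fintype.card l * sig (ev ρ A) := by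
  classical
  induction S using Finset.induction_on with
  | empty =>
    refine ⟨Unit, inferInstance, inferInstance, 1, isU_one, by simp, fun _ _ => rfl, ?_, ?_⟩
    · intro s hs
      exact absurd hs (Finset.notMem_empty s)
    · intro ι _ _ A a b ha hA hg κ _ _ ρ hρ
      rw [Fintype.card_unit, Nat.cast_one, one_mul]
      refine sig_ev_congr ha hA hg (hρ.tens isU_one) hρ fun g => ?_
      rw [trace_tens, MonoidHom.one_apply, trace_one, Fintype.card_unit, Nat.cast_one, mul_one]
  | insert s S hs ih =>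
    obtain ⟨l, i1, i2, τ, hτ, hl, hτK, hτS, hτA⟩ := ih fun s' hs' => hS s'
      (Finset.mem_insert_of_mem hs')
    obtain ⟨Q, iQ, f, L, hLn, hLf, hQ, hfs, hfK⟩ := hS s (Finset.mem_insert_self s S)
    obtain ⟨X, _, _, r, hr, hne⟩ := exists_tr L
    set θ : Q →* Matrix (X × Unit) (X × Unit) ℂ :=
      indRep L r hr ((1 : Q →* Matrix Unit Unit ℂ).comp L.subtype) with hθ
    have hθU : IsU θ := isU_indRep L r hr (isU_sub isU_one)
    have hθtr : ∀ q ∉ L, (θ q).trace = 0 := by
      intro q hq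
      rw [hθ, trace_indRep, fix_normal, if_neg hq, zero_mul]
    refine ⟨l × (X × Unit), inferInstance, inferInstance, tens τ (θ.comp f),
      hτ.tens (isU_comp hθU), ?_, ?_, ?_, ?_⟩
    · rw [Fintype.card_prod]
      exact Nat.mul_pos hl Fintype.card_pos
    · intro k hk
      show Matrix.kroneckerMap (· * ·) (τ k) (θ (f k)) = 1
      rw [hτK k hk, hfK k hk, map_one]
      exact Matrix.one_kronecker_one
    · intro s' hs'
      rw [trace_tens]
      rcases Finset.mem_insert.1 hs' with h | h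
      · subst h
        have h1 : ((θ.comp f) s').trace = 0 := hθtr _ hfs
        rw [h1, mul_zero]
      · rw [hτS s' h, zero_mul]
    · intro ι _ _ A a b ha hA hg κ _ _ ρ hρ
      rw [sig_ev_congr ha hA hg (σ := tens (tens ρ τ) (θ.comp f))
        (hρ.tens (hτ.tens (isU_comp hθU))) ((hρ.tens hτ).tens (isU_comp hθU))
        (fun g => by simp only [trace_tens, mul_assoc]),
        rig_tens hQ f ha hA hg (hρ.tens hτ) hθU, hτA ι A a b ha hA hg κ ρ hρ]
      simp only [Fintype.card_prod]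
      push_cast
      ring

/-- **Signatures in tensor products.** -/
theorem res_tensor (K : Set G) (hK : ∀ g, g ∉ K → Det K g)
    {A : Matrix ι ι (MonoidAlgebra ℂ G)} {a b : ℝ} (ha : 0 < a)
    (hA : Herm A) (hg : GapA A a b) {ρ : G →* Matrix κ κ ℂ} (hρ : IsU ρ)
    (hρK : ∀ g ∈ K, ρ g = 1) {σ : G →* Matrix l l ℂ} (hσ : IsU σ) :
    sig (ev (tens ρ σ) A) = Fintype.card κ * sig (ev σ A) := by
  classical
  set m : ℝ := (Fintype.card ι : ℝ) * (Fintype.card κ : ℝ) * (Fintype.card l : ℝ) with hm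
  have hm0 : 0 ≤ m := by positivity
  obtain ⟨P, ε, hε, hP⟩ := exists_appr (b := b) ha (1 / (2 * m + 1)) (by positivity)
  have hg' : GapA A a (max a b) := hg.mono (le_max_right a b)
  set x := (aeval A P).trace with hx
  obtain ⟨t, i1, i2, τ, hτ, ht, -, hτS, hτA⟩ := exists_killer K
    (x.coeff.support.filter (· ∉ K)) (fun s hs => hK s (Finset.mem_filter.1 hs).2)
  have hnear : ∀ (t' : Type) [Fintype t'] [DecidableEq t'] (ρ' : G →* Matrix t' t' ℂ), IsU ρ' →
      ‖T (fun g => (ρ' g).trace) x - (sig (ev ρ' A) : ℂ)‖ ≤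
        Fintype.card ι * Fintype.card t' * ε := by
    intro t' _ _ ρ' hρ'
    have h1 := trace_sig (hA.ev hρ') (hg' t' ρ' hρ') hP
    rw [aeval_ev, trace_ev, ← hx, Fintype.card_prod, Nat.cast_mul] at h1
    exact h1
  have h1 := hnear _ (tens (tens ρ σ) τ) ((hρ.tens hσ).tens hτ)
  have h2 := hnear _ (tens σ τ) (hσ.tens hτ)
  rw [hτA ι A a b ha hA hg _ _ (hρ.tens hσ), Fintype.card_prod, Fintype.card_prod] at h1
  rw [hτA ι A a b ha hA hg _ _ hσ, Fintype.card_prod] at h2
  have h3 : T (fun g => (tens (tens ρ σ) τ g).trace) x =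
      (Fintype.card κ : ℂ) * T (fun g => (tens σ τ g).trace) x := by
    rw [← T_const_mul]
    refine T_congr fun g hgx => ?_
    simp only [trace_tens]
    by_cases hgK : g ∈ K
    · rw [hρK g hgK, trace_one]
      ring
    · rw [hτS g (Finset.mem_filter.2 ⟨Finsupp.mem_support_iff.2 hgx, hgK⟩)]
      ring
  rw [h3] at h1
  set y := T (fun g => (tens σ τ g).trace) x with hy
  have ht' : (0 : ℝ) < Fintype.card t := Nat.cast_pos.2 ht
  have h4 : (Fintype.card t : ℝ) *
      ‖((sig (ev (tens ρ σ) A) - Fintype.card κ * sig (ev σ A) : ℤ) : ℂ)‖ ≤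
      (Fintype.card t : ℝ) * (2 * m * ε) := by
    calc _ = ‖(Fintype.card κ : ℂ) * (y - ((Fintype.card t * sig (ev σ A) : ℤ) : ℂ)) -
          ((Fintype.card κ : ℂ) * y - ((Fintype.card t * sig (ev (tens ρ σ) A) : ℤ) : ℂ))‖ := by
            rw [← Complex.norm_natCast, ← norm_mul]
            congr 1
            push_cast
            ring
      _ ≤ ‖(Fintype.card κ : ℂ) * (y - ((Fintype.card t * sig (ev σ A) : ℤ) : ℂ))‖ +
          ‖(Fintype.card κ : ℂ) * y - ((Fintype.card t * sig (ev (tens ρ σ) A) : ℤ) : ℂ)‖ :=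
            norm_sub_le _ _
      _ ≤ (Fintype.card κ : ℝ) * (Fintype.card ι * ((Fintype.card l * Fintype.card t : ℕ) : ℝ) * ε)
          + Fintype.card ι * ((Fintype.card κ * Fintype.card l * Fintype.card t : ℕ) : ℝ) * ε := by
            apply add_le_add _ h1
            rw [norm_mul, Complex.norm_natCast]
            exact mul_le_mul_of_nonneg_left h2 (Nat.cast_nonneg _)
      _ = _ := by
            rw [hm]
            push_cast
            ring
  have h5 := le_of_mul_le_mul_left h4 ht'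
  rw [Complex.norm_intCast] at h5
  have h6 : 2 * m * ε < 1 := by
    rcases hm0.eq_or_lt with h0 | h0
    · rw [← h0, mul_zero, zero_mul]
      exact zero_lt_one
    · calc 2 * m * ε < 2 * m * (1 / (2 * m + 1)) := mul_lt_mul_of_pos_left hε (by linarith)
        _ ≤ 1 := by
            rw [mul_one_div, div_le_one (by positivity)]
            linarith
  have h7 : |sig (ev (tens ρ σ) A) - Fintype.card κ * sig (ev σ A)| < 1 := by
    have h8 := lt_of_le_of_lt h5 h6
    exact_mod_cast h8
  exact sub_eq_zero.1 (Int.abs_lt_one_iff.1 h7)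

/-- the canonical trace for groups with sufficiently many rigid residually finite quotients -/
theorem res_l2 (hK : ∀ g : G, g ≠ 1 → Det {1} g)
    {A : Matrix ι ι (MonoidAlgebra ℂ G)} {a b : ℝ}
    (ha : 0 < a) (hA : Herm A) (hg : GapA A a b) {P : ℝ[X]} {ε : ℝ} (hP : Appr P a b ε) :
    ‖(∑ i, (aeval A P i i).coeff 1) - (sig (aug A) : ℂ)‖ ≤ Fintype.card ι * ε := by
  classical
  set x := (aeval A P).trace with hx
  obtain ⟨t, i1, i2, τ, hτ, ht, -, hτS, hτA⟩ := exists_killer {1}
    (x.coeff.support.filter (· ∉ ({1} : Set G))) (fun s hs => hK s (Finset.mem_filter.1 hs).2)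
  have h1 := trace_sig (hA.ev hτ) (hg t τ hτ) hP
  rw [aeval_ev, trace_ev, ← hx, Fintype.card_prod, Nat.cast_mul] at h1
  have h2 : sig (ev τ A) = Fintype.card t * sig (aug A) := by
    have h3 := hτA ι A a b ha hA hg Unit 1 isU_one
    have h4 := sig_ev_const ha hA hg (ρ := (1 : G →* Matrix Unit Unit ℂ)) isU_one (by
      intro g
      rw [MonoidHom.one_apply, trace_one])
    rw [Fintype.card_unit, Nat.cast_one, one_mul] at h4
    rw [h4] at h3
    rw [← h3]
    refine sig_ev_congr ha hA hg hτ (isU_one.tens hτ) fun g => ?_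
    rw [trace_tens, MonoidHom.one_apply, trace_one, Fintype.card_unit, Nat.cast_one, one_mul]
  have h3 : T (fun g => (τ g).trace) x = (Fintype.card t : ℂ) * ∑ i, (aeval A P i i).coeff 1 := by
    have h4 : T (fun g => (τ g).trace) x =
        T (fun g => (Fintype.card t : ℂ) * if g = 1 then 1 else 0) x := by
      refine T_congr fun g hgx => ?_
      by_cases h5 : g = 1
      · rw [h5, if_pos rfl, map_one, trace_one, mul_one]
      · rw [if_neg h5, mul_zero]
        exact hτS g (Finset.mem_filter.2 ⟨Finsupp.mem_support_iff.2 hgx, h5⟩)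
    rw [h4, T_const_mul, hx, ← TT_eq]
    congr 1
    unfold TT
    refine Finset.sum_congr rfl fun i _ => ?_
    rw [T_apply, Finsupp.sum]
    simp only [mul_ite, mul_zero, mul_one]
    rw [Finset.sum_ite_eq']
    split_ifs with h7
    · rfl
    · rw [Finsupp.notMem_support_iff.1 h7]
  rw [h3, h2] at h1
  have ht' : (0 : ℝ) < Fintype.card t := Nat.cast_pos.2 ht
  have h4 : (Fintype.card t : ℝ) * ‖(∑ i, (aeval A P i i).coeff 1) - (sig (aug A) : ℂ)‖ ≤
      Fintype.card t * (Fintype.card ι * ε) := by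
    rw [← Complex.norm_natCast, ← norm_mul, Complex.norm_natCast]
    calc _ = ‖(Fintype.card t : ℂ) * (∑ i, (aeval A P i i).coeff 1) -
          ((Fintype.card t * sig (aug A) : ℤ) : ℂ)‖ := by
            congr 1
            push_cast
            ring
      _ ≤ _ := h1
      _ = _ := by ring
  exact le_of_mul_le_mul_left h4 ht'

end Pool.Agent.H748.Art
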