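import Pool.Agent.H748.Art.Cyc

/-!
# Spectral decomposition of unitary matrices; deformation of representations
-/

set_option autoImplicit false
set_option linter.unusedSectionVars false

namespace Pool.Agent.H748.Art

open Polynomial Matrix Filter Pool.Agent.H748.Sig

section
open scoped Matrix.Norms.L2Operator

/-- spectral decomposition of a unitary matrix -/
theorem exists_spectral {κ : Type} [Fintype κ] [DecidableEq κ] (U : Matrix κ κ ℂ)
    (h1 : Uᴴ * U = 1) (h2 : U * Uᴴ = 1) :
    ∃ (S : Finset ℂ) (E : ℂ → Matrix κ κ ℂ), (∀ z ∈ S, ‖z‖ = 1) ∧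
      (∀ z ∈ S, ∀ w ∈ S, E z * E w = if z = w then E z else 0) ∧ ∑ z ∈ S, E z = 1 ∧
      ∑ z ∈ S, z • E z = U ∧ (∀ z ∈ S, (E z)ᴴ = E z) ∧
      ∀ B : Matrix κ κ ℂ, Commute U B → Commute Uᴴ B → ∀ z ∈ S, Commute (E z) B := by
  classical
  have hU : U ∈ unitary (Matrix κ κ ℂ) := Unitary.mem_iff.2 ⟨h1, h2⟩
  have hn : IsStarNormal U := ⟨by
    show Uᴴ * U = U * Uᴴ
    rw [h1, h2]⟩
  have hfin : (spectrum ℂ U).Finite := Matrix.finite_spectrum U
  have hc : ∀ f : ℂ → ℂ, ContinuousOn f (spectrum ℂ U) := fun f => hfin.continuousOn f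
  refine ⟨hfin.toFinset, fun z => cfc (fun w => if w = z then (1 : ℂ) else 0) U, ?_, ?_, ?_, ?_,
    ?_, ?_⟩
  · intro z hz
    have h3 : z ∈ spectrum ℂ U := hfin.mem_toFinset.1 hz
    have h4 := spectrum.subset_circle_of_unitary hU h3
    simpa using h4
  · intro z hz w hw
    rw [← cfc_mul (fun v => if v = z then (1 : ℂ) else 0) (fun v => if v = w then (1 : ℂ) else 0) U
      (hc _) (hc _)]
    split_ifs with h
    · subst h
      congr 1
      funext v
      split_ifs <;> simp
    · have h3 : (fun v : ℂ => (if v = z then (1 : ℂ) else 0) * (if v = w then (1 : ℂ) else 0)) =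
          fun _ => 0 := by
        funext v
        by_cases hv : v = z
        · subst hv
          rw [if_neg h, mul_zero]
        · rw [if_neg hv, zero_mul]
      rw [h3]
      exact cfc_const_zero ℂ U
  · rw [← cfc_sum (fun z v => if v = z then (1 : ℂ) else 0) U hfin.toFinset (fun _ _ => hc _)]
    have h3 : (spectrum ℂ U).EqOn (∑ z ∈ hfin.toFinset, fun v => if v = z then (1 : ℂ) else 0)
        (fun _ => 1) := by
      intro v hv
      rw [Finset.sum_apply, Finset.sum_ite_eq, if_pos (hfin.mem_toFinset.2 hv)]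
    rw [cfc_congr h3]
    exact cfc_const_one ℂ U
  · have h3 : ∀ z ∈ hfin.toFinset, z • cfc (fun w => if w = z then (1 : ℂ) else 0) U =
        cfc (fun w => z * if w = z then (1 : ℂ) else 0) U := by
      intro z _
      rw [cfc_const_mul z _ U (hc _)]
    rw [Finset.sum_congr rfl h3, ← cfc_sum (fun z v => z * if v = z then (1 : ℂ) else 0) U
      hfin.toFinset (fun _ _ => hc _)]
    have h4 : (spectrum ℂ U).EqOn (∑ z ∈ hfin.toFinset, fun v => z * if v = z then (1 : ℂ) else 0)
        (fun v => v) := by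
      intro v hv
      rw [Finset.sum_apply]
      simp only [mul_ite, mul_one, mul_zero]
      rw [Finset.sum_ite_eq, if_pos (hfin.mem_toFinset.2 hv)]
    rw [cfc_congr h4]
    exact cfc_id' ℂ U
  · intro z _
    show star (cfc (fun w => if w = z then (1 : ℂ) else 0) U) = _
    rw [← cfc_star]
    congr 1
    funext v
    split_ifs <;> simp
  · intro B hB1 hB2 z _
    exact Commute.cfc hB1 hB2 _

end

variable {G : Type*} [Group G]
variable {ι κ l X : Type} [Fintype ι] [DecidableEq ι] [Fintype κ] [DecidableEq κ] [Fintype l]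
  [DecidableEq l] [Fintype X] [DecidableEq X]

/-- one-parameter groups of unitary matrices -/
theorem exists_oneparam (U : Matrix κ κ ℂ) (h1 : Uᴴ * U = 1) (h2 : U * Uᴴ = 1) :
    ∃ W : ℝ → Matrix κ κ ℂ, W 0 = 1 ∧ (∀ s t, W (s + t) = W s * W t) ∧ (∀ s, (W s)ᴴ = W (-s)) ∧
      W 1 * U = 1 ∧ (∀ B, Commute U B → Commute Uᴴ B → ∀ s, Commute (W s) B) ∧
      ∀ i j, Continuous fun s => W s i j := by
  classical
  obtain ⟨S, E, hS, hE, hE1, hEU, hEs, hEc⟩ := exists_spectral U h1 h2
  set e : ℝ → ℂ → ℂ := fun s z => Complex.exp (-((s * Complex.arg z : ℝ) : ℂ) * Complex.I) with he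
  refine ⟨fun s => ∑ z ∈ S, e s z • E z, ?_, ?_, ?_, ?_, ?_, ?_⟩
  · rw [← hE1]
    refine Finset.sum_congr rfl fun z _ => ?_
    simp [he]
  · intro s t
    show _ = (∑ z ∈ S, e s z • E z) * (∑ w ∈ S, e t w • E w)
    rw [Finset.sum_mul_sum]
    refine Finset.sum_congr rfl fun z hz => ?_
    rw [Finset.sum_eq_single_of_mem z hz]
    · rw [smul_mul_smul_comm, hE z hz z hz, if_pos rfl]
      congr 1
      rw [he]
      show Complex.exp _ = Complex.exp _ * Complex.exp _
      rw [← Complex.exp_add]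
      congr 1
      push_cast
      ring
    · intro w hw hwz
      rw [smul_mul_smul_comm, hE z hz w hw, if_neg (Ne.symm hwz), smul_zero]
  · intro s
    rw [conjTranspose_sum]
    refine Finset.sum_congr rfl fun z hz => ?_
    rw [conjTranspose_smul, hEs z hz]
    congr 1
    rw [he]
    show star (Complex.exp _) = Complex.exp _
    rw [Complex.star_def, ← Complex.exp_conj]
    congr 1
    rw [map_mul, map_neg, Complex.conj_I, Complex.conj_ofReal]
    push_cast
    ring
  · show (∑ z ∈ S, e 1 z • E z) * U = 1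
    conv_lhs => rw [← hEU]
    rw [Finset.sum_mul_sum, ← hE1]
    refine Finset.sum_congr rfl fun z hz => ?_
    rw [Finset.sum_eq_single_of_mem z hz]
    · rw [smul_mul_smul_comm, hE z hz z hz, if_pos rfl]
      have h3 : e 1 z * z = 1 := by
        have h4 := Complex.norm_mul_exp_arg_mul_I z
        rw [hS z hz, Complex.ofReal_one, one_mul] at h4
        rw [he]
        show Complex.exp _ * z = 1
        conv_lhs => rw [← h4]
        rw [← Complex.exp_add, h4]
        have h5 : -((1 * Complex.arg z : ℝ) : ℂ) * Complex.I + (Complex.arg z : ℂ) * Complex.I = 0 := by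
          push_cast
          ring
        rw [h5, Complex.exp_zero]
      rw [h3, one_smul]
    · intro w hw hwz
      rw [smul_mul_smul_comm, hE z hz w hw, if_neg (Ne.symm hwz), smul_zero]
  · intro B hB1 hB2 s
    exact Commute.sum_left _ _ _ fun z hz => (hEc B hB1 hB2 z hz).smul_left _
  · intro i j
    simp only [Matrix.sum_apply, Matrix.smul_apply, smul_eq_mul]
    refine continuous_finsetSum _ fun z _ => ?_
    refine Continuous.mul ?_ continuous_const
    rw [he]
    fun_prop

/-- Deformation of a representation along a homomorphism to `ℤ` such that a central element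
with a nontrivial image becomes trivial. -/
theorem exists_flow (ρ : G →* Matrix κ κ ℂ) (hρ : IsU ρ) (φ : G →* Multiplicative ℤ) (x : G)
    (hx : ∀ g, Commute x g) (hφ : φ x ≠ 1) :
    ∃ ρ' : ℝ → (G →* Matrix κ κ ℂ), (∀ t, IsU (ρ' t)) ∧ ρ' 0 = ρ ∧ ρ' 1 x = 1 ∧
      ∀ g i j, Continuous fun t => ρ' t g i j := by
  have hU1 : (ρ x)ᴴ * ρ x = 1 := by rw [hρ, ← map_mul, inv_mul_cancel, map_one]
  have hU2 : ρ x * (ρ x)ᴴ = 1 := by rw [hρ, ← map_mul, mul_inv_cancel, map_one]
  obtain ⟨W, hW0, hWadd, hWs, hW1, hWc, hWcont⟩ := exists_oneparam (ρ x) hU1 hU2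
  set M : ℝ := ((Multiplicative.toAdd (φ x) : ℤ) : ℝ) with hM
  have hM0 : M ≠ 0 := by
    rw [hM]
    intro hc
    apply hφ
    have : Multiplicative.toAdd (φ x) = 0 := by exact_mod_cast hc
    exact Multiplicative.toAdd.injective this
  have hcom : ∀ g s, Commute (W s) (ρ g) := by
    intro g s
    refine hWc (ρ g) ?_ ?_ s
    · show ρ x * ρ g = ρ g * ρ x
      rw [← map_mul, ← map_mul, hx g]
    · show (ρ x)ᴴ * ρ g = ρ g * (ρ x)ᴴ
      rw [hρ, ← map_mul, ← map_mul, ((hx g).inv_left).eq]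
  refine ⟨fun t =>
    { toFun := fun g => ρ g * W (t * ((Multiplicative.toAdd (φ g) : ℤ) : ℝ) / M)
      map_one' := by
        rw [map_one, map_one, toAdd_one, Int.cast_zero, mul_zero, zero_div, hW0, mul_one]
      map_mul' := by
        intro g h
        rw [map_mul, map_mul, toAdd_mul, Int.cast_add, mul_add, add_div, hWadd]
        rw [mul_assoc, mul_assoc]
        congr 1
        rw [← mul_assoc, ← mul_assoc, ((hcom h _).eq)] }, ?_, ?_, ?_, ?_⟩
  · intro t g
    show (ρ g * W (t * ((Multiplicative.toAdd (φ g) : ℤ) : ℝ) / M))ᴴ =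
      ρ g⁻¹ * W (t * ((Multiplicative.toAdd (φ g⁻¹) : ℤ) : ℝ) / M)
    rw [conjTranspose_mul, hWs, hρ, map_inv φ, toAdd_inv, (hcom g⁻¹ _).eq]
    congr 2
    push_cast
    ring
  · ext g : 1
    show ρ g * W (0 * ((Multiplicative.toAdd (φ g) : ℤ) : ℝ) / M) = ρ g
    rw [zero_mul, zero_div, hW0, mul_one]
  · show ρ x * W (1 * ((Multiplicative.toAdd (φ x) : ℤ) : ℝ) / M) = 1
    rw [one_mul, ← hM, div_self hM0, ← (hcom x 1).eq, hW1]
  · intro g i j
    show Continuous fun t => (ρ g * W (t * ((Multiplicative.toAdd (φ g) : ℤ) : ℝ) / M)) i j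
    simp only [Matrix.mul_apply]
    refine continuous_finsetSum _ fun k _ => ?_
    refine continuous_const.mul ?_
    exact (hWcont k j).comp (by fun_prop)

theorem continuous_ev {ρ : ℝ → (G →* Matrix κ κ ℂ)}
    (hc : ∀ g i j, Continuous fun t => ρ t g i j) (A : Matrix ι ι (MonoidAlgebra ℂ G)) :
    Continuous fun t => ev (ρ t) A := by
  refine continuous_matrix fun p q => ?_
  simp only [ev_apply, MonoidAlgebra.lift_apply, Finsupp.sum, Matrix.sum_apply,
    Matrix.smul_apply, smul_eq_mul]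
  exact continuous_finsetSum _ fun g _ => continuous_const.mul (hc g _ _)

theorem sig_ev_path {A : Matrix ι ι (MonoidAlgebra ℂ G)} {a b : ℝ} (ha : 0 < a) (hA : Herm A)
    (hg : GapA A a b) {ρ : ℝ → (G →* Matrix κ κ ℂ)} (hρ : ∀ t, IsU (ρ t))
    (hc : ∀ g i j, Continuous fun t => ρ t g i j) (s t : ℝ) :
    sig (ev (ρ s) A) = sig (ev (ρ t) A) :=
  sig_path (M := fun t => ev (ρ t) A) (continuous_ev hc A) ha (fun t => hA.ev (hρ t))
    (fun t => hg κ (ρ t) (hρ t)) s t

end Pool.Agent.H748.Art
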