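import Pool.Agent.H748.Art.Res

/-!
# Torsion-free virtually abelian quotients; RFRS groups
-/

set_option autoImplicit false
set_option linter.unusedSectionVars false

namespace Pool.Agent.H748.Art

open Pool.Agent.H748.Sig
open scoped commutatorElement

universe u

/-- torsion-free virtually abelian groups -/
def TFVA (Q : Type*) [Group Q] : Prop :=
  (∀ (x : Q) (m : ℕ), 0 < m → x ^ m = 1 → x = 1) ∧
    ∃ N : Subgroup Q, N.FiniteIndex ∧ ∀ x ∈ N, ∀ y ∈ N, x * y = y * x

theorem exists_embed {N : Type u} [Group N] [hfg : Group.FG N] (hc : ∀ x y : N, x * y = y * x)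
    (htf : TF N) :
    ∃ n, ∃ g : N →* Multiplicative (Fin n → ℤ), Function.Injective g := by
  let _ : CommGroup N := { (inferInstance : Group N) with mul_comm := hc }
  have h1 : AddGroup.FG (Additive N) := by
    rw [← GroupFG.iff_add_fg]
    exact hfg
  have h2 : Module.Finite ℤ (Additive N) := Module.Finite.iff_addGroup_fg.2 h1
  have h3 : Module.IsTorsionFree ℤ (Additive N) := by
    refine ⟨fun r hr a b hab => ?_⟩
    have hr0 : r ≠ 0 := hr.ne_zero
    have h4 : r • (a - b) = 0 := by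
      have h5 : r • a = r • b := hab
      rw [smul_sub, h5, sub_self]
    set c : N := Additive.toMul (a - b) with hcdef
    have h5 : c ^ r = 1 := h4
    have h6 : c ^ r.natAbs = 1 := by
      rcases Int.natAbs_eq r with h | h
      · rw [← zpow_natCast, ← h, h5]
      · rw [← zpow_natCast, show ((r.natAbs : ℕ) : ℤ) = -r by omega, zpow_neg, h5, inv_one]
    have h7 : c = 1 := htf c r.natAbs (Int.natAbs_pos.2 hr0) h6
    have h8 : a - b = 0 := h7
    exact sub_eq_zero.1 h8
  have h4 : Module.Free ℤ (Additive N) := inferInstance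
  let b := Module.finBasis ℤ (Additive N)
  refine ⟨_, { toFun := fun x => Multiplicative.ofAdd (b.equivFun (Additive.ofMul x)),
               map_one' := ?_, map_mul' := ?_ }, ?_⟩
  · rw [ofMul_one, map_zero]
    rfl
  · intro x y
    rw [ofMul_mul, map_add]
    rfl
  · intro x y hxy
    have h5 := Multiplicative.ofAdd.injective hxy
    exact Additive.ofMul.injective (b.equivFun.injective h5)

theorem exists_avoid {Q : Type u} [Group Q] (N : Subgroup Q) [N.FiniteIndex] {n : ℕ}
    (g : N →* Multiplicative (Fin n → ℤ)) (hg : Function.Injective g) (q : Q) (hq : q ≠ 1) :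
    ∃ L : Subgroup Q, L.Normal ∧ L.FiniteIndex ∧ q ∉ L := by
  by_cases hqN : q ∈ N
  · have h1 : Multiplicative.toAdd (g ⟨q, hqN⟩) ≠ 0 := by
      intro hc
      apply hq
      have h2 : g ⟨q, hqN⟩ = g 1 := by
        rw [map_one]
        exact Multiplicative.toAdd.injective hc
      exact congrArg Subtype.val (hg h2)
    obtain ⟨i, hi⟩ := Function.ne_iff.1 h1
    set ψ : N →* Multiplicative ℤ :=
      (AddMonoidHom.toMultiplicative (Pi.evalAddMonoidHom (fun _ : Fin n => ℤ) i)).comp g with hψ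
    have hi' : Multiplicative.toAdd (ψ ⟨q, hqN⟩) ≠ 0 := hi
    set m : ℕ := (Multiplicative.toAdd (ψ ⟨q, hqN⟩)).natAbs + 1 with hm
    have h2 : (dvd ψ m).FiniteIndex := finiteIndex_dvd ψ (Nat.succ_pos _)
    have h3 : ((dvd ψ m).map N.subtype).FiniteIndex := by
      refine ⟨?_⟩
      rw [Subgroup.index_map_subtype]
      exact mul_ne_zero h2.index_ne_zero Subgroup.FiniteIndex.index_ne_zero
    refine ⟨((dvd ψ m).map N.subtype).normalCore, inferInstance, inferInstance, ?_⟩
    intro hc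
    have h4 := Subgroup.normalCore_le _ hc
    obtain ⟨a, ha, haq⟩ := h4
    have h5 : a = ⟨q, hqN⟩ := Subtype.ext haq
    rw [h5] at ha
    have h6 := mem_dvd.1 ha
    have h7 := Int.le_of_dvd (Int.natAbs_pos.2 hi' |> fun h => by exact_mod_cast h)
      (Int.dvd_natAbs.2 h6)
    rw [hm] at h7
    push_cast at h7
    linarith
  · exact ⟨N.normalCore, inferInstance, inferInstance, fun hc => hqN (Subgroup.normalCore_le _ hc)⟩

theorem det_of_tfva {H Q : Type u} [Group H] [hfg : Group.FG H] [Group Q] (hQ : TFVA Q)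
    (f : H →* Q) (h : H) (hh : f h ≠ 1) (K : Set H) (hK : ∀ k ∈ K, f k = 1) : Det K h := by
  obtain ⟨htf, N, hNf, hNc⟩ := hQ
  have hRfg : Group.FG f.range := inferInstance
  have hRtf : TF f.range := TF.sub htf f.range
  set N' : Subgroup f.range := (N.subgroupOf f.range).normalCore with hN'
  have hN'n : N'.Normal := inferInstance
  have hN'f : N'.FiniteIndex := inferInstance
  have hN'fg : Group.FG N' := inferInstance
  have hN'c : ∀ x y : N', x * y = y * x := by
    intro x y
    have hx : ((x : f.range) : Q) ∈ N :=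
      Subgroup.normalCore_le (N.subgroupOf f.range) x.2
    have hy : ((y : f.range) : Q) ∈ N :=
      Subgroup.normalCore_le (N.subgroupOf f.range) y.2
    apply Subtype.ext
    apply Subtype.ext
    exact hNc _ hx _ hy
  obtain ⟨n, g, hg⟩ := exists_embed hN'c (hRtf.sub N')
  obtain ⟨L, hL1, hL2, hL3⟩ := exists_avoid N' g hg (f.rangeRestrict h) (by
    intro hc
    exact hh (congrArg Subtype.val hc))
  refine ⟨f.range, inferInstance, f.rangeRestrict, L, hL1, hL2,
    rig_vab n f.range N' hN'n hN'f hRtf ⟨g, hg⟩, hL3, ?_⟩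
  intro k hk
  apply Subtype.ext
  exact hK k hk

/-- **RFRS groups** (Agol): there are normal subgroups `C i` of finite index,
`G = C 0 ≥ C 1 ≥ …`, with trivial intersection, such that `C (i + 1)` contains the kernel of
`C i → H₁(C i; ℚ)`, that is all `g ∈ C i` with a power in the commutator subgroup of `C i`. -/
def RFRS (G : Type*) [Group G] : Prop :=
  ∃ C : ℕ → Subgroup G, C 0 = ⊤ ∧ (∀ i, C (i + 1) ≤ C i) ∧
    (∀ i, (C i).Normal ∧ (C i).FiniteIndex) ∧ (∀ g, (∀ i, g ∈ C i) → g = 1) ∧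
    ∀ i, ∀ g ∈ C i, ∀ m : ℕ, 0 < m → g ^ m ∈ ⁅C i, C i⁆ → g ∈ C (i + 1)

/-- the kernel of `H → H₁(H; ℚ)` -/
def ratKer {G : Type*} [Group G] (H : Subgroup G) : Subgroup G :=
  ((CommGroup.torsion (Abelianization H)).comap Abelianization.of).map H.subtype

theorem mem_ratKer {G : Type*} [Group G] {H : Subgroup G} {g : G} :
    g ∈ ratKer H ↔ g ∈ H ∧ ∃ m : ℕ, 0 < m ∧ g ^ m ∈ ⁅H, H⁆ := by
  have h1 : ∀ (a : H) (m : ℕ), (Abelianization.of a) ^ m = 1 ↔ (a : G) ^ m ∈ ⁅H, H⁆ := by
    intro a m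
    rw [← map_pow, ← MonoidHom.mem_ker, Abelianization.ker_of, ← Subgroup.map_subtype_commutator]
    constructor
    · intro h
      exact ⟨a ^ m, h, rfl⟩
    · rintro ⟨b, hb, hba⟩
      have h2 : b = a ^ m := Subtype.ext hba
      rwa [← h2]
  constructor
  · rintro ⟨a, ha, rfl⟩
    refine ⟨a.2, ?_⟩
    obtain ⟨m, hm, h2⟩ := (isOfFinOrder_iff_pow_eq_one.1 ha)
    exact ⟨m, hm, (h1 a m).1 h2⟩
  · rintro ⟨hg, m, hm, h2⟩
    exact ⟨⟨g, hg⟩, isOfFinOrder_iff_pow_eq_one.2 ⟨m, hm, (h1 ⟨g, hg⟩ m).2 h2⟩, rfl⟩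

theorem RFRS.exists_quot {G : Type u} [Group G] (h : RFRS G) (g : G) (hg : g ≠ 1) :
    ∃ (N : Subgroup G) (_ : N.Normal), TFVA (G ⧸ N) ∧ g ∉ N := by
  obtain ⟨C, hC0, hCle, hCn, hC1, hCr⟩ := h
  have h1 : ∃ i, g ∉ C i := by
    by_contra hc
    push Not at hc
    exact hg (hC1 g hc)
  obtain ⟨i, hi⟩ := h1
  have hnorm : (ratKer (C i)).Normal := by
    refine ⟨fun a ha x => ?_⟩
    have hn := (hCn i).1
    obtain ⟨h2, m, hm, h3⟩ := mem_ratKer.1 ha
    refine mem_ratKer.2 ⟨hn.conj_mem a h2 x, m, hm, ?_⟩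
    rw [conj_pow]
    exact (inferInstance : (⁅C i, C i⁆).Normal).conj_mem _ h3 x
  have hanti : ∀ j k, j ≤ k → C k ≤ C j := by
    intro j k hjk
    induction hjk with
    | refl => exact le_rfl
    | step _ ih => exact (hCle _).trans ih
  refine ⟨ratKer (C i), hnorm, ⟨?_, (C i).map (QuotientGroup.mk' (ratKer (C i))), ?_, ?_⟩, ?_⟩
  · intro x m hm hx
    obtain ⟨a, rfl⟩ := QuotientGroup.mk'_surjective (ratKer (C i)) x
    have h2 : a ^ m ∈ ratKer (C i) := (QuotientGroup.eq_one_iff (a ^ m)).1 hx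
    obtain ⟨-, k, hk, h3⟩ := mem_ratKer.1 h2
    rw [← pow_mul] at h3
    have hmk : 0 < m * k := Nat.mul_pos hm hk
    have h4 : ∀ j, j ≤ i → a ∈ C j := by
      intro j
      induction j with
      | zero =>
        intro _
        rw [hC0]
        exact Subgroup.mem_top a
      | succ j ih =>
        intro hj
        exact hCr j a (ih (by omega)) (m * k) hmk
          (Subgroup.commutator_mono (hanti j i (by omega)) (hanti j i (by omega)) h3)
    exact (QuotientGroup.eq_one_iff a).2 (mem_ratKer.2 ⟨h4 i le_rfl, m * k, hmk, h3⟩)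
  · have hf := (hCn i).2
    have h2 : ((C i).map (QuotientGroup.mk' (ratKer (C i)))).index ∣ (C i).index :=
      Subgroup.index_map_dvd _ (QuotientGroup.mk'_surjective _)
    exact ⟨fun hc => hf.index_ne_zero (by rw [hc] at h2; exact zero_dvd_iff.1 h2)⟩
  · rintro _ ⟨a, ha, rfl⟩ _ ⟨b, hb, rfl⟩
    rw [← map_mul, ← map_mul]
    apply (QuotientGroup.eq (s := ratKer (C i))).2
    refine mem_ratKer.2 ⟨?_, 1, one_pos, ?_⟩
    · exact (C i).mul_mem ((C i).inv_mem ((C i).mul_mem ha hb)) ((C i).mul_mem hb ha)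
    · rw [pow_one]
      have h2 : (a * b)⁻¹ * (b * a) = ⁅b⁻¹, a⁻¹⁆ := by
        rw [commutatorElement_def]
        group
      rw [h2]
      exact Subgroup.commutator_mem_commutator ((C i).inv_mem hb) ((C i).inv_mem ha)
  · intro hc
    exact hi (mem_ratKer.1 hc).1

end Pool.Agent.H748.Art
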