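import Pool.Agent.H748.Art.Cen

/-!
# Torsion-free virtually abelian groups are rigid
-/

set_option autoImplicit false
set_option linter.unusedSectionVars false

namespace Pool.Agent.H748.Art

open Pool.Agent.H748.Sig

universe u

/-- torsion-free groups -/
def TF (G : Type*) [Group G] : Prop := ∀ (x : G) (m : ℕ), 0 < m → x ^ m = 1 → x = 1

theorem TF.sub {G : Type*} [Group G] (h : TF G) (H : Subgroup G) : TF H := by
  intro x m hm hx
  apply Subtype.ext
  exact h x m hm (by rw [← Subgroup.coe_pow, hx, Subgroup.coe_one])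

theorem mult_zpow_eq_one {a : Multiplicative ℤ} (ha : a ≠ 1) {k : ℤ} (h : a ^ k = 1) : k = 0 := by
  have h1 := congrArg Multiplicative.toAdd h
  rw [toAdd_zpow, toAdd_one, smul_eq_mul] at h1
  rcases mul_eq_zero.1 h1 with h2 | h2
  · exact h2
  · exact absurd (Multiplicative.toAdd.injective h2) ha

theorem rig_step {H : Type u} [Group H] (n : ℕ)
    (IH : ∀ (K : Type u) [Group K] (N : Subgroup K), N.Normal → N.FiniteIndex → TF K →
      (∃ f : N →* Multiplicative (Fin n → ℤ), Function.Injective f) → Rig K)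
    (hTF : TF H) (N : Subgroup H) [N.Normal] [N.FiniteIndex]
    (f : N →* Multiplicative (Fin (n + 1) → ℤ)) (hf : Function.Injective f) (x : N) (hx1 : x ≠ 1)
    (hx : ∀ h : H, Commute (x : H) h) : Rig H := by
  set v : Fin (n + 1) → ℤ := Multiplicative.toAdd (f x) with hv
  have hv0 : v ≠ 0 := by
    intro hc
    apply hx1
    apply hf
    rw [map_one]
    exact Multiplicative.toAdd.injective hc
  obtain ⟨i, hi⟩ := Function.ne_iff.1 hv0
  have hi' : v i ≠ 0 := hi
  set ψ : N →* Multiplicative ℤ :=
    (AddMonoidHom.toMultiplicative (Pi.evalAddMonoidHom (fun _ : Fin (n + 1) => ℤ) i)).comp f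
    with hψ
  set φ : H →* Multiplicative ℤ := MonoidHom.transfer ψ with hφ
  have hφx : φ x ≠ 1 := by
    have key : ∀ (k : ℕ) (g₀ : H), g₀⁻¹ * (x : H) ^ k * g₀ ∈ N →
        g₀⁻¹ * (x : H) ^ k * g₀ = (x : H) ^ k := by
      intro k g₀ _
      rw [mul_assoc, ((hx g₀).pow_left k).eq, inv_mul_cancel_left]
    rw [hφ, MonoidHom.transfer_eq_pow ψ (x : H) key]
    have h1 : (⟨(x : H) ^ N.index, MonoidHom.transfer_eq_pow_aux (x : H) key⟩ : N) =
        x ^ N.index := Subtype.ext rfl
    rw [h1, map_pow]
    intro hc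
    have h2 := congrArg Multiplicative.toAdd hc
    rw [toAdd_pow, toAdd_one, smul_eq_zero] at h2
    rcases h2 with h2 | h2
    · exact Subgroup.FiniteIndex.index_ne_zero h2
    · exact hi' h2
  refine rig_of_central φ x hx hφx ?_
  refine IH φ.ker (N.subgroupOf φ.ker) inferInstance inferInstance (hTF.sub _) ?_
  let L : (Fin (n + 1) → ℤ) →+ (Fin n → ℤ) :=
    { toFun := fun w j => v i * w (i.succAbove j) - w i * v (i.succAbove j)
      map_zero' := by
        funext j
        simp
      map_add' := by
        intro w w'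
        funext j
        simp only [Pi.add_apply]
        ring }
  let j : N.subgroupOf φ.ker →* N := φ.ker.subtype.subgroupComap N
  refine ⟨(AddMonoidHom.toMultiplicative L).comp (f.comp j), ?_⟩
  rw [injective_iff_map_eq_one]
  intro y hy
  set w : Fin (n + 1) → ℤ := Multiplicative.toAdd (f (j y)) with hw
  have hLw : L w = 0 := congrArg Multiplicative.toAdd hy
  have h1 : ∀ k, v i * w k = w i * v k := by
    intro k
    rcases Fin.eq_self_or_eq_succAbove i k with h | ⟨l, h⟩
    · rw [h, mul_comm]
    · rw [h]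
      exact sub_eq_zero.1 (congrFun hLw l)
  have h2 : (j y) ^ (v i) = x ^ (w i) := by
    apply hf
    apply Multiplicative.toAdd.injective
    rw [map_zpow f, map_zpow f, toAdd_zpow, toAdd_zpow]
    funext k
    rw [Pi.smul_apply, Pi.smul_apply, smul_eq_mul, smul_eq_mul]
    exact h1 k
  have h3 : φ (x : H) ^ (w i) = 1 := by
    have h4 := congrArg (fun z : N => φ (z : H)) h2
    simp only [Subgroup.coe_zpow, map_zpow] at h4
    have h5 : φ ((j y : N) : H) = 1 := y.1.2
    rw [h5, one_zpow] at h4
    exact h4.symm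
  have h4 : w i = 0 := mult_zpow_eq_one hφx h3
  have h5 : w = 0 := by
    funext k
    have h6 := h1 k
    rw [h4, zero_mul] at h6
    exact (mul_eq_zero.1 h6).resolve_left hi'
  have h6 : j y = 1 := by
    apply hf
    rw [map_one]
    exact Multiplicative.toAdd.injective h5
  apply Subtype.ext
  apply Subtype.ext
  exact congrArg (fun z : N => (z : H)) h6

theorem rig_vab (n : ℕ) : ∀ (G : Type u) [Group G] (N : Subgroup G), N.Normal →
    N.FiniteIndex → TF G → (∃ f : N →* Multiplicative (Fin n → ℤ), Function.Injective f) →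
    Rig G := by
  have base : ∀ (G : Type u) [Group G] (N : Subgroup G), N.FiniteIndex → TF G → N = ⊥ → Rig G := by
    intro G _ N hN hTF hbot
    subst hbot
    have h1 : Finite G := by
      have h2 : Finite (G ⧸ (⊥ : Subgroup G)) := inferInstance
      exact Finite.of_equiv _ (QuotientGroup.quotientBot (G := G)).toEquiv
    have h2 : Subsingleton G := by
      refine ⟨fun a b => ?_⟩
      have h3 : ∀ a : G, a = 1 := fun a => hTF a (Nat.card G) Nat.card_pos (pow_card_eq_one')
      rw [h3 a, h3 b]
    exact rig_of_subsingleton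
  induction n with
  | zero =>
    rintro G _ N hN hNf hTF ⟨f, hf⟩
    refine base G N hNf hTF ?_
    rw [Subgroup.eq_bot_iff_forall]
    intro y hy
    have h1 : (⟨y, hy⟩ : N) = 1 := by
      apply hf
      apply Multiplicative.toAdd.injective
      funext k
      exact k.elim0
    exact congrArg Subtype.val h1
  | succ n ih =>
    rintro G _ N hN hNf hTF ⟨f, hf⟩
    by_cases hbot : N = ⊥
    · exact base G N hNf hTF hbot
    obtain ⟨y, hy, hy1⟩ := (Subgroup.ne_bot_iff_exists_ne_one.1 hbot).elim
      (fun a ha => (⟨(a : G), a.2, fun hc => ha (Subtype.ext hc)⟩ : ∃ y : G, y ∈ N ∧ y ≠ 1))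
    have hcomm : ∀ a ∈ N, ∀ b ∈ N, Commute a b := by
      intro a ha b hb
      have h1 : (⟨a, ha⟩ : N) * ⟨b, hb⟩ = ⟨b, hb⟩ * ⟨a, ha⟩ := by
        apply hf
        rw [map_mul, map_mul, mul_comm]
      exact congrArg Subtype.val h1
    refine rig_of_cyclic N fun z => ?_
    have h1 : ∃ g : G, QuotientGroup.mk' N g = z ∧ g ≠ 1 := by
      by_cases hz : z = 1
      · exact ⟨y, by rw [hz]; exact (QuotientGroup.eq_one_iff y).2 hy, hy1⟩
      · obtain ⟨g, hg⟩ := QuotientGroup.mk'_surjective N z
        refine ⟨g, hg, ?_⟩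
        rintro rfl
        exact hz (by rw [← hg, map_one])
    obtain ⟨g, hgz, hg1⟩ := h1
    set H : Subgroup G := (Subgroup.zpowers z).comap (QuotientGroup.mk' N) with hH
    have hNH : N ≤ H := by
      intro a ha
      rw [hH, Subgroup.mem_comap]
      have : QuotientGroup.mk' N a = 1 := (QuotientGroup.eq_one_iff a).2 ha
      rw [this]
      exact Subgroup.one_mem _
    have hm : 0 < orderOf z := orderOf_pos z
    have hker : ∀ a : G, QuotientGroup.mk' N a = 1 → a ∈ N := fun a ha =>
      (QuotientGroup.eq_one_iff a).1 ha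
    have hgN : g ^ orderOf z ∈ N := by
      apply hker
      rw [map_pow, hgz, pow_orderOf_eq_one]
    have hgH : g ∈ H := by
      rw [hH, Subgroup.mem_comap, hgz]
      exact Subgroup.mem_zpowers z
    have hx1 : g ^ orderOf z ≠ 1 := fun hc => hg1 (hTF g _ hm hc)
    have hcen : ∀ h : H, Commute (g ^ orderOf z) (h : G) := by
      intro h
      obtain ⟨k, hk⟩ := Subgroup.mem_zpowers_iff.1 (Subgroup.mem_comap.1 h.2)
      have h2 : (g ^ k)⁻¹ * (h : G) ∈ N := by
        apply hker
        rw [map_mul, map_inv, map_zpow, hgz, hk, inv_mul_cancel]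
      have h3 : (h : G) = g ^ k * ((g ^ k)⁻¹ * (h : G)) := by rw [mul_inv_cancel_left]
      rw [h3]
      exact (((Commute.refl g).pow_left _).zpow_right k).mul_right (hcomm _ hgN _ h2)
    let j : N.subgroupOf H →* N := H.subtype.subgroupComap N
    refine rig_step n ih (hTF.sub H) (N.subgroupOf H) (f.comp j) ?_
      ⟨⟨g ^ orderOf z, hNH hgN⟩, hgN⟩ ?_ ?_
    · intro a b hab
      have h4 := hf hab
      apply Subtype.ext
      apply Subtype.ext
      exact congrArg (fun z : N => (z : G)) h4
    · intro hc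
      apply hx1
      exact congrArg (fun z : N.subgroupOf H => ((z : H) : G)) hc
    · intro h
      apply Subtype.ext
      exact hcen h

end Pool.Agent.H748.Art
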